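import Pool.Agent.N115.JT.Forms
import Pool.Agent.Y190.BV.Cont

/-!
Varieties of general type from a polynomial `F` and a function `t` which compensates the places
where `F` has a contact of order one with one of the nodes.
-/

set_option autoImplicit false
set_option linter.unusedSectionVars false

open FF Pool.Agent.W603.LV Pool.Agent.W602.GT Pool.Agent.Y190.BV

namespace Pool.Agent.N115.JT

section

variable {k K : Type} [Field k] [Field K] [Algebra k K]

theorem reg_iff {P : Place k K} {f : K} : P.Reg f ↔ Ge P 0 f := Iff.rfl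

/-- regular vector fields which are tangent are logarithmic -/
theorem derLog_of {P : Place k K} {D : Derivation k K K} (hD : DerReg P D) {p : K} (hp0 : p ≠ 0)
    (hp : P.ord p = 1) (h : Ge P 1 (D p)) : DerLog P D := by
  intro f
  by_cases hf : f = 0
  · rw [hf, div_zero]
    exact Or.inl rfl
  set n := P.ord f with hn
  set v : K := f / p ^ n with hv
  have hpn : p ^ n ≠ 0 := zpow_ne_zero _ hp0
  have hv0 : v ≠ 0 := div_ne_zero hf hpn
  have hvord : P.ord v = 0 := by
    rw [hv, P.ord_div hf hpn, P.ord_zpow, hp, mul_one, sub_self]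
  have hfv : f = v * p ^ n := by rw [hv, div_mul_cancel₀ _ hpn]
  have h1 : D f / f = D v / v + (n : K) * (D p / p) := by
    rw [hfv, D.leibniz, Derivation.leibniz_zpow]
    simp only [smul_eq_mul, zsmul_eq_mul]
    have : p ^ (n - 1) = p ^ n / p := by rw [zpow_sub_one₀ hp0, div_eq_mul_inv]
    rw [this]
    field_simp
    ring
  change Ge P 0 _
  rw [h1]
  have h2 : Ge P 0 (D v) := hD v (Or.inr hvord.ge)
  have h3 : Ge P 0 (D v / v) := by
    have := ge_div hv0 h2
    rwa [hvord, sub_zero] at this
  have h4 : Ge P 0 (D p / p) := by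
    have := ge_div hp0 h
    rwa [hp, sub_self] at this
  have h5 : Ge P 0 ((n : K) * (D p / p)) := by
    have h6 : ((n : ℤ) : K) = algebraMap k K (n : k) := by rw [map_intCast]
    rw [h6]
    have := (Ge.const (P := P) (n : k)).mul h4
    rwa [add_zero] at this
  exact h3.add h5

/-- the poles of forms which are logarithmic -/
theorem ge_of_log {P : Place k K} {w M : ℕ} {ω : (Fin w → Derivation k K K) → K}
    (hω : IsPluri M ω) {n : ℤ} (hlog : ∀ D : Fin w → Derivation k K K, (∀ i, DerLog P (D i)) →
      Ge P n (ω D)) {D : Fin w → Derivation k K K} (hD : ∀ i, DerReg P (D i)) :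
    Ge P (n - M) (ω D) := by
  classical
  obtain ⟨p, hp0, hp⟩ := P.surj
  by_cases hall : ∀ i, Ge P 1 (D i p)
  · exact (hlog D fun i => derLog_of (hD i) hp0 hp (hall i)).mono (by omega)
  push Not at hall
  obtain ⟨i0, hi0⟩ := hall
  have hreg : ∀ i, Ge P 0 (D i p) := fun i => hD i p (Or.inr (by omega))
  have hu0 : D i0 p ≠ 0 := fun h => hi0 (Or.inl h)
  have hu : P.ord (D i0 p) = 0 := by
    have h1 := (hreg i0).resolve_left hu0
    have h2 : ¬ 1 ≤ P.ord (D i0 p) := fun h => hi0 (Or.inr h)
    omega
  set c : Fin w → K := fun i => if i = i0 then 0 else D i p / D i0 p with hc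
  have hcreg : ∀ i, Ge P 0 (c i) := by
    intro i
    simp only [hc]
    split_ifs
    · exact Or.inl rfl
    · have := ge_div hu0 (hreg i)
      rwa [hu, sub_zero] at this
  set G : Matrix (Fin w) (Fin w) K := Matrix.diagonal fun i => if i = i0 then p else 1 with hG
  set E : Matrix (Fin w) (Fin w) K := 1 + Matrix.replicateCol Unit (fun i => - c i) *
    Matrix.replicateRow Unit (Pi.single i0 (1 : K)) with hE
  have hGdet : G.det = p := by
    rw [hG, Matrix.det_diagonal, Finset.prod_ite_eq' Finset.univ i0 (fun _ => p)]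
    simp
  have hEdet : E.det = 1 := by
    rw [hE, Matrix.det_one_add_replicateCol_mul_replicateRow]
    simp [hc]
  have hEij : ∀ i j, E i j = (if i = j then 1 else 0) - c i * (if j = i0 then 1 else 0) := by
    intro i j
    rw [hE, Matrix.add_apply, Matrix.one_apply, Matrix.mul_apply]
    simp only [Matrix.replicateCol_apply, Matrix.replicateRow_apply, Finset.univ_unique,
      Finset.sum_const, Finset.card_singleton, one_smul, Pi.single_apply]
    ring
  have hsum : ∀ i, ∑ j, (G * E) i j • D j = (if i = i0 then p else 1) • (D i - c i • D i0) := by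
    intro i
    have h1 : ∀ j, (G * E) i j = (if i = i0 then p else 1) * E i j := by
      intro j
      rw [hG, Matrix.diagonal_mul]
    simp only [h1, mul_smul]
    rw [← Finset.smul_sum]
    congr 1
    simp only [hEij, sub_smul, Finset.sum_sub_distrib, mul_smul, ← Finset.smul_sum]
    simp
  have h1 := hlog (fun i => ∑ j, (G * E) i j • D j) fun i => by
    rw [hsum]
    have hr : DerReg P (D i - c i • D i0) := by
      intro f hf
      rw [Derivation.sub_apply, Derivation.smul_apply, smul_eq_mul]
      have h2 := (hcreg i).mul (hD i0 f hf)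
      rw [add_zero] at h2
      exact Ge.sub (hD i f hf) h2
    have hr2 : DerReg P ((if i = i0 then p else 1) • (D i - c i • D i0)) := by
      intro f hf
      rw [Derivation.smul_apply, smul_eq_mul]
      have h2 : Ge P 0 (if i = i0 then p else (1 : K)) := by
        split_ifs
        · exact Or.inr (by omega)
        · exact Ge.one
      have h3 := h2.mul (hr f hf)
      rwa [add_zero] at h3
    refine derLog_of hr2 hp0 hp ?_
    rw [Derivation.smul_apply, smul_eq_mul, Derivation.sub_apply, Derivation.smul_apply,
      smul_eq_mul]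
    by_cases hi : i = i0
    · rw [if_pos hi]
      have h2 : Ge P 1 p := Or.inr hp.ge
      have h3 := h2.mul (Ge.sub (hreg i) (by
        have := (hcreg i).mul (hreg i0)
        rwa [add_zero] at this))
      rwa [add_zero] at h3
    · have h2 : D i p - c i * D i0 p = 0 := by
        simp only [hc, if_neg hi]
        rw [div_mul_cancel₀ _ hu0, sub_self]
      rw [h2, mul_zero]
      exact Or.inl rfl
  rw [hω, Matrix.det_mul, hGdet, hEdet, mul_one] at h1
  have hpM : p ^ M ≠ 0 := pow_ne_zero _ hp0
  have h2 := ge_div hpM h1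
  rw [mul_div_assoc, mul_comm, div_mul_cancel₀ _ hpM] at h2
  rw [P.ord_pow, hp, mul_one] at h2
  exact h2

end

/-- **Varieties of general type.** -/
theorem core_t {k K : Type} [Field k] [Field K] [Algebra k K] [IsAlgClosed k] [CharZero k]
    {L : Type} [Field L] [Algebra k L] [Algebra K L]
    [IsScalarTower k K L] [FiniteDimensional K L] [IsGalois K L] {w : ℕ}
    (htr : Algebra.trdeg k K = w) (F : Polynomial K) (hF : F.Separable)
    (hs : (F.map (algebraMap K L)).Splits)
    (hS : Algebra.IsAlgebraic (Algebra.adjoin k (F.rootSet L)) L)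
    {q : ℕ} (a : Fin q → k) (ha : Function.Injective a) (B : ℕ)
    (hbound : 2 * (F.natDegree + (w + B) * (F.natDegree + 1 - w)) < q)
    (h0 : ∀ i, F.eval (algebraMap k K (a i)) ≠ 0) (i0 : Fin q) (t : K) (ht : t ≠ 0)
    (h1 : ∀ P : Place k K, Ge P (-(B * ct P F (a i0))) t)
    (h2 : ∀ (P : Place k K) (i : Fin q), ct P F (a i) = 1 → Ge P (1 - B * ct P F (a i0)) t) :
    GeneralType k K w := by
  classical
  obtain ⟨M, hM, ω, x, hx, hpl, hne, hrat, hord⟩ := forms2 (R := B) htr F hF hs hS a ha 2
    (fun _ => 1) (fun _ => by norm_num) (by simpa using hbound) h0 i0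
  have hF0 : F ≠ 0 := hF.ne_zero
  refine ⟨htr, M, hM, fun j D => t ^ M * ω j D, fun j A D => ?_, fun P _ j D hD => ?_, ?_⟩
  · simp only [hpl j A D]
    ring
  · -- the order at the place `P`
    change Ge P 0 (t ^ M * ω j D)
    obtain ⟨j0, hj0, hj1⟩ := cnt_att P hF0
    have hj2 : ∀ j, F.coeff j = 0 ∨ P.ord (F.coeff j0) ≤ P.ord (F.coeff j) := by
      intro j
      rw [hj1]
      exact cnt_ge P F j
    have hct : ∀ i, P.ord (F.eval (algebraMap k K (a i))) - P.ord (F.coeff j0) = ct P F (a i) := by
      intro i
      rw [hj1]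
      rfl
    by_cases hgood : ∀ i, ct P F (a i) ≠ 1
    · have h3 := hord true P j0 hj0 hj2 (fun _ i => by
        have h4 := ct_nonneg P (h0 i)
        have h5 := hgood i
        rcases eq_or_lt_of_le h4 with h6 | h6
        · left
          have := hct i
          omega
        · right
          rw [hct]
          push_cast
          omega) j D hD
      rw [hct] at h3
      have h4 := ((h1 P).pow M).mul h3
      refine h4.mono (le_of_eq ?_)
      ring
    · push Not at hgood
      obtain ⟨i, hi⟩ := hgood
      have h3 : ∀ D : Fin w → Derivation k K K, (∀ i, DerLog P (D i)) →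
          Ge P ((B : ℤ) * M * ct P F (a i0)) (ω j D) := by
        intro D hD
        have h4 := hord false P j0 hj0 hj2 (fun h => absurd h (by decide)) j D hD
        rwa [hct] at h4
      have h4 := ge_of_log (hpl j) h3 hD
      have h5 := ((h2 P i hi).pow M).mul h4
      refine h5.mono (le_of_eq ?_)
      ring
  · obtain ⟨D, hD⟩ := hne
    refine ⟨D, mul_ne_zero (pow_ne_zero _ ht) hD, ?_⟩
    have h3 : (fun i : Fin w => t ^ M * ω i.succ D / (t ^ M * ω 0 D)) = x := by
      funext i
      rw [hrat]
      have := pow_ne_zero M ht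
      field_simp
    rw [h3]
    exact hx.1

end Pool.Agent.N115.JT
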