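import Pool.Agent.N115.JT.Datum
import Pool.Agent.N115.JT.Core

/-!
Several multi-valued maps together.
-/

set_option autoImplicit false
set_option linter.unusedSectionVars false

open FF Pool.Agent.W603.LV Pool.Agent.W602.GT Pool.Agent.Y190.BV Polynomial

namespace Pool.Agent.N115.JT

/-- the least common multiple of squarefree monic polynomials -/
theorem exists_rad {K : Type} [Field K] {ι : Type} (I : Finset ι) (F : ι → K[X])
    (hm : ∀ α ∈ I, (F α).Monic) (hs : ∀ α ∈ I, Squarefree (F α)) :
    ∃ F0 : K[X], F0.Monic ∧ Squarefree F0 ∧ (∀ α ∈ I, F α ∣ F0) ∧ F0 ∣ ∏ α ∈ I, F α := by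
  classical
  set G := ∏ α ∈ I, F α with hG
  have hGm : G.Monic := Polynomial.monic_prod_of_monic _ _ hm
  have hr0 : UniqueFactorizationMonoid.radical G ≠ 0 := UniqueFactorizationMonoid.radical_ne_zero
  have has : Associated (UniqueFactorizationMonoid.radical G)
      (normalize (UniqueFactorizationMonoid.radical G)) := associated_normalize _
  refine ⟨normalize (UniqueFactorizationMonoid.radical G), Polynomial.monic_normalize hr0, ?_,
    fun α hα => ?_, ?_⟩
  · exact has.squarefree_iff.1 UniqueFactorizationMonoid.squarefree_radical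
  · rw [has.symm.dvd_iff_dvd_right]
    refine (UniqueFactorizationMonoid.dvd_radical_iff (hs α hα).isRadical hGm.ne_zero).2 ?_
    exact Finset.dvd_prod_of_mem _ hα
  · rw [has.symm.dvd_iff_dvd_left]
    exact UniqueFactorizationMonoid.radical_dvd_self

/-- contacts of divisors -/
theorem ct_le_of_dvd {k K : Type} [Field k] [Field K] [Algebra k K] [Infinite k] (P : Place k K)
    {F G : K[X]} (h : F ∣ G) {c : k} (hG : G.eval (algebraMap k K c) ≠ 0) :
    ct P F c ≤ ct P G c := by
  obtain ⟨A, rfl⟩ := h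
  rw [Polynomial.eval_mul] at hG
  have h1 := left_ne_zero_of_mul hG
  have h2 := right_ne_zero_of_mul hG
  rw [ct_mul P h1 h2]
  have := ct_nonneg P h2
  omega

theorem alg_trans {k K S : Type} [Field k] [Field K] [Field S] [Algebra k S] [Algebra K S]
    (E : IntermediateField k S) [Algebra.IsAlgebraic K S]
    (h : ∀ x : K, IsAlgebraic E (algebraMap K S x)) : Algebra.IsAlgebraic E S := by
  let F1 : IntermediateField E S := algebraicClosure E S
  let φ : K →+* F1 :=
    { toFun := fun x => ⟨algebraMap K S x, mem_algebraicClosure_iff.2 (h x)⟩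
      map_one' := Subtype.ext (map_one _)
      map_mul' := fun x y => Subtype.ext (map_mul _ _ _)
      map_zero' := Subtype.ext (map_zero _)
      map_add' := fun x y => Subtype.ext (map_add _ _ _) }
  let _ : Algebra K F1 := φ.toAlgebra
  have : IsScalarTower K F1 S := IsScalarTower.of_algebraMap_eq fun x => rfl
  have h6 : Algebra.IsAlgebraic F1 S :=
    Algebra.IsAlgebraic.extendScalars (R := K) (S := F1) (A := S) φ.injective
  have h7 : Algebra.IsAlgebraic E F1 := algebraicClosure.isAlgebraic E S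
  exact Algebra.IsAlgebraic.trans E F1 S

/-- algebraicity over the roots goes down to the splitting field -/
theorem splitting_alg {k K Ω : Type} [Field k] [Field K] [Field Ω] [Algebra k K] [Algebra k Ω]
    [Algebra K Ω] [IsScalarTower k K Ω] [IsAlgClosed Ω] (F : K[X])
    (hS : ∀ x : K, IsAlgebraic (IntermediateField.adjoin k (F.rootSet Ω)) (algebraMap K Ω x)) :
    Algebra.IsAlgebraic (Algebra.adjoin k (F.rootSet F.SplittingField)) F.SplittingField := by
  rw [← IntermediateField.isAlgebraic_adjoin_iff_top]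
  set E := IntermediateField.adjoin k (F.rootSet F.SplittingField) with hE
  refine alg_trans (K := K) E fun x => ?_
  let σ : F.SplittingField →ₐ[K] Ω := IsAlgClosed.lift
  let _ : Algebra E Ω := (σ.toRingHom.comp (algebraMap E F.SplittingField)).toAlgebra
  let σ' : F.SplittingField →ₐ[E] Ω := { σ.toRingHom with commutes' := fun _ => rfl }
  have hinj : Function.Injective σ' := σ.toRingHom.injective
  rw [← isAlgebraic_algHom_iff σ' hinj]
  change IsAlgebraic E (σ (algebraMap K F.SplittingField x))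
  rw [σ.commutes]
  -- the image of `E`
  set E' := IntermediateField.adjoin k (F.rootSet Ω) with hE'
  have hEE' : E.map (σ.restrictScalars k) = E' := by
    rw [hE', hE, IntermediateField.adjoin_map,
      ← (Polynomial.SplittingField.splits F).image_rootSet σ]
    rfl
  have hmem : ∀ z : E, σ z ∈ E' := fun z => by
    rw [← hEE']
    exact ⟨z, z.2, rfl⟩
  let ψ : E →+* E' :=
    { toFun := fun z => ⟨σ z, hmem z⟩
      map_one' := Subtype.ext (map_one _)
      map_mul' := fun x y => Subtype.ext (map_mul _ _ _)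
      map_zero' := Subtype.ext (map_zero _)
      map_add' := fun x y => Subtype.ext (map_add _ _ _) }
  let _ : Algebra E E' := ψ.toAlgebra
  have : IsScalarTower E E' Ω := IsScalarTower.of_algebraMap_eq fun x => rfl
  have hsurj : Function.Surjective ψ := by
    rintro ⟨z, hz⟩
    rw [← hEE'] at hz
    obtain ⟨z', hz', rfl⟩ := hz
    exact ⟨⟨z', hz'⟩, rfl⟩
  have halg : Algebra.IsAlgebraic E E' := ⟨fun z => by
    obtain ⟨z', rfl⟩ := hsurj z
    exact isAlgebraic_algebraMap (R := E) (A := E') z'⟩
  exact IsAlgebraic.restrictScalars E (hS x)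

/-- **Several maps together.** -/
theorem comb {k K Ω : Type} [Field k] [Field K] [Field Ω] [Algebra k K] [Algebra k Ω]
    [Algebra K Ω] [IsScalarTower k K Ω] [CharZero k] [IsAlgClosed k] [IsAlgClosed Ω]
    {w r n N s : ℕ} (hr : 1 ≤ r) (htr : Algebra.trdeg k K = w)
    (hN : 4 * (s * (r * n)) + (s * (r * n) + s * (r * (r - 1)) + 1) ^ 2 < 2 * (N + 1))
    {a : Fin (N + 1) → k} (ha : Function.Injective a) {ι : Type} (I : Finset ι)
    (hI : I.card ≤ s) {Z : ι → Finset (Fin (N + 1))} {F : ι → K[X]} {b : ι → ℕ} {δ : ι → K}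
    (hD : ∀ α ∈ I, Dat r n a (Z α) (F α) (b α) (δ α)) {i0 : Fin (N + 1)}
    (hi0 : ∀ α ∈ I, i0 ∉ Z α)
    (hS : ∀ x : K, IsAlgebraic (IntermediateField.adjoin k (⋃ α ∈ I, (F α).rootSet Ω))
      (algebraMap K Ω x)) : GeneralType k K w := by
  classical
  have hinf : Infinite k := IsAlgClosed.instInfinite
  have hchK : CharZero K := charZero_of_injective_algebraMap (algebraMap k K).injective
  obtain ⟨F0, hm0, hsq0, hdvd, hdvd'⟩ := exists_rad I F (fun α hα => (hD α hα).monic)
    fun α hα => (hD α hα).sq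
  have hF00 : F0 ≠ 0 := hm0.ne_zero
  have hsep : F0.Separable := PerfectField.separable_iff_squarefree.2 hsq0
  have hnr0 : ∀ c : k, F0.eval (algebraMap k K c) ≠ 0 := by
    intro c h
    obtain ⟨A, hA⟩ := hdvd'
    have h1 : (∏ α ∈ I, F α).eval (algebraMap k K c) = 0 := by
      rw [hA, Polynomial.eval_mul, h, zero_mul]
    rw [Polynomial.eval_prod] at h1
    obtain ⟨α, hα, h2⟩ := Finset.prod_eq_zero_iff.1 h1
    exact (hD α hα).nroot c h2
  have hgal : IsGalois K F0.SplittingField := IsGalois.of_separable_splitting_field hsep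
  have tow : IsScalarTower k K F0.SplittingField := inferInstance
  have hS' : Algebra.IsAlgebraic (Algebra.adjoin k (F0.rootSet F0.SplittingField))
      F0.SplittingField := by
    refine splitting_alg (Ω := Ω) F0 fun x => ?_
    have h1 : (⋃ α ∈ I, (F α).rootSet Ω) ⊆ F0.rootSet Ω := by
      intro z hz
      simp only [Set.mem_iUnion] at hz
      obtain ⟨α, hα, hz⟩ := hz
      rw [Polynomial.mem_rootSet] at hz ⊢
      refine ⟨hF00, ?_⟩
      obtain ⟨A, hA⟩ := hdvd α hα
      rw [hA, map_mul, hz.2, zero_mul]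
    have h2 := IntermediateField.adjoin.mono k _ _ h1
    let _ : Algebra (IntermediateField.adjoin k (⋃ α ∈ I, (F α).rootSet Ω))
      (IntermediateField.adjoin k (F0.rootSet Ω)) := (IntermediateField.inclusion h2).toRingHom.toAlgebra
    have : IsScalarTower (IntermediateField.adjoin k (⋃ α ∈ I, (F α).rootSet Ω))
      (IntermediateField.adjoin k (F0.rootSet Ω)) Ω := IsScalarTower.of_algebraMap_eq fun x => rfl
    exact (hS x).extendScalars (IntermediateField.inclusion h2).toRingHom.injective
  -- the good nodes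
  set Zt : Finset (Fin (N + 1)) := I.biUnion Z with hZt
  set Q : Finset (Fin (N + 1)) := Finset.univ \ Zt with hQ
  have hi0Q : i0 ∈ Q := by
    rw [hQ, Finset.mem_sdiff, hZt, Finset.mem_biUnion]
    exact ⟨Finset.mem_univ _, fun ⟨α, hα, h⟩ => hi0 α hα h⟩
  have hQc : Q.card + Zt.card = N + 1 := by
    rw [hQ, Finset.card_sdiff_add_card_eq_card (Finset.subset_univ _), Finset.card_univ,
      Fintype.card_fin]
  have hdegs : F0.natDegree + r * Zt.card ≤ s * (r * n) := by
    have h1 : F0.natDegree ≤ ∑ α ∈ I, (F α).natDegree := by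
      refine (Polynomial.natDegree_le_of_dvd hdvd' ?_).trans ?_
      · exact Finset.prod_ne_zero_iff.2 fun α hα => (hD α hα).monic.ne_zero
      · rw [Polynomial.natDegree_prod_of_monic _ _ fun α hα => (hD α hα).monic]
    have h2 : Zt.card ≤ ∑ α ∈ I, (Z α).card := Finset.card_biUnion_le
    have h3 : ∑ α ∈ I, ((F α).natDegree + r * (Z α).card) ≤ I.card * (r * n) := by
      rw [← smul_eq_mul, ← Finset.sum_const]
      exact Finset.sum_le_sum fun α hα => (hD α hα).deg
    rw [Finset.sum_add_distrib, ← Finset.mul_sum] at h3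
    have h4 : I.card * (r * n) ≤ s * (r * n) := Nat.mul_le_mul_right _ hI
    have h5 : r * Zt.card ≤ r * ∑ α ∈ I, (Z α).card := Nat.mul_le_mul_left _ h2
    omega
  set B : ℕ := ∑ α ∈ I, b α with hB
  have hBs : B ≤ s * (r * (r - 1)) := by
    have h3 : ∑ α ∈ I, b α ≤ I.card * (r * (r - 1)) := by
      rw [← smul_eq_mul, ← Finset.sum_const]
      exact Finset.sum_le_sum fun α hα => (hD α hα).hb
    exact h3.trans (Nat.mul_le_mul_right _ hI)
  let e : Fin Q.card ≃ Q := Q.equivFin.symm
  -- the function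
  set t : K := ∏ α ∈ I, δ α / (F α).eval (algebraMap k K (a i0)) ^ b α with ht
  have ht0 : ∀ α ∈ I, δ α / (F α).eval (algebraMap k K (a i0)) ^ b α ≠ 0 := fun α hα =>
    div_ne_zero (hD α hα).ne (pow_ne_zero _ ((hD α hα).nroot _))
  have hct : ∀ (P : Place k K) (i : Fin (N + 1)), ∀ α ∈ I, ct P (F α) (a i) ≤ ct P F0 (a i) :=
    fun P i α hα => ct_le_of_dvd P (hdvd α hα) (hnr0 _)
  have hct0 : ∀ (P : Place k K) (i : Fin (N + 1)), ∀ α ∈ I, 0 ≤ ct P (F α) (a i) :=
    fun P i α hα => ct_nonneg P ((hD α hα).nroot _)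
  have hord : ∀ (P : Place k K), ∀ α ∈ I,
      P.ord (δ α / (F α).eval (algebraMap k K (a i0)) ^ b α) =
        P.ord (δ α) - b α * cnt P (F α) - b α * ct P (F α) (a i0) := by
    intro P α hα
    rw [P.ord_div (hD α hα).ne (pow_ne_zero _ ((hD α hα).nroot _)), P.ord_pow]
    unfold ct
    ring
  have hsumB : ∀ P : Place k K, ∑ α ∈ I, (b α : ℤ) * ct P (F α) (a i0) ≤
      B * ct P F0 (a i0) := by
    intro P
    rw [hB]
    push_cast
    rw [Finset.sum_mul]
    exact Finset.sum_le_sum fun α hα => mul_le_mul_of_nonneg_left (hct P i0 α hα) (by positivity)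
  have hordt : ∀ P : Place k K, P.ord t = ∑ α ∈ I,
      (P.ord (δ α) - b α * cnt P (F α) - b α * ct P (F α) (a i0)) := by
    intro P
    have h1 : ∀ J : Finset ι, J ⊆ I →
        P.ord (∏ α ∈ J, δ α / (F α).eval (algebraMap k K (a i0)) ^ b α) =
        ∑ α ∈ J, P.ord (δ α / (F α).eval (algebraMap k K (a i0)) ^ b α) := by
      intro J
      induction J using Finset.induction_on with
      | empty => intro _; rw [Finset.prod_empty, Finset.sum_empty, P.ord_one]
      | insert β J hβ ih =>
        intro hJ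
        rw [Finset.prod_insert hβ, Finset.sum_insert hβ, P.ord_mul (ht0 β (hJ
          (Finset.mem_insert_self _ _))) (Finset.prod_ne_zero_iff.2 fun α hα => ht0 α (hJ
          (Finset.mem_insert_of_mem hα))), ih ((Finset.subset_insert _ _).trans hJ)]
    rw [ht, h1 I (Finset.Subset.refl _)]
    exact Finset.sum_congr rfl fun α hα => hord P α hα
  refine core_t (L := F0.SplittingField) htr F0 hsep (Polynomial.SplittingField.splits F0) hS'
    (fun j : Fin Q.card => a (e j)) (fun i j hij => e.injective (Subtype.ext (ha hij))) B ?_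
    (fun i => hnr0 _) (e.symm ⟨i0, hi0Q⟩) t (Finset.prod_ne_zero_iff.2 ht0) (fun P => ?_)
    fun P i hi => ?_
  · -- the numbers
    set d := F0.natDegree with hd
    have h1 : (w + B) * (d + 1 - w) * 4 ≤ (d + 1 + B) ^ 2 := by
      rcases Nat.lt_or_ge (d + 1) w with h | h
      · rw [Nat.sub_eq_zero_of_le h.le, mul_zero, zero_mul]
        exact Nat.zero_le _
      · obtain ⟨c, hc⟩ := Nat.exists_eq_add_of_le h
        rw [hc, Nat.add_sub_cancel_left]
        nlinarith [sq_nonneg ((w : ℤ) + B - c), sq_nonneg (w + B + c)]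
    have h2 : (d + 1 + B) ^ 2 ≤ (s * (r * n) + s * (r * (r - 1)) + 1) ^ 2 :=
      Nat.pow_le_pow_left (by omega) 2
    have h3 : Zt.card ≤ r * Zt.card := Nat.le_mul_of_pos_left _ hr
    omega
  · have h1 : a (e (e.symm ⟨i0, hi0Q⟩)) = a i0 := by rw [Equiv.apply_symm_apply]
    rw [h1]
    right
    rw [hordt]
    have h2 : ∑ α ∈ I, (P.ord (δ α) - b α * cnt P (F α) - b α * ct P (F α) (a i0)) ≥
        ∑ α ∈ I, - ((b α : ℤ) * ct P (F α) (a i0)) := by
      refine Finset.sum_le_sum fun α hα => ?_
      have := (hD α hα).ge P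
      omega
    rw [Finset.sum_neg_distrib] at h2
    have := hsumB P
    omega
  · have h1 : a (e (e.symm ⟨i0, hi0Q⟩)) = a i0 := by rw [Equiv.apply_symm_apply]
    rw [h1]
    right
    rw [hordt]
    set i' : Fin (N + 1) := (e i : Fin (N + 1)) with hi'
    have hiQ : i' ∈ Q := (e i).2
    have hiZ : ∀ α ∈ I, i' ∉ Z α := by
      intro α hα h
      rw [hQ, Finset.mem_sdiff, hZt, Finset.mem_biUnion] at hiQ
      exact hiQ.2 ⟨α, hα, h⟩
    change ct P F0 (a i') = 1 at hi
    -- one of the `F α` has contact one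
    obtain ⟨β, hβ, hβ1⟩ : ∃ β ∈ I, ct P (F β) (a i') = 1 := by
      by_contra hcon
      push Not at hcon
      have h3 : ∀ α ∈ I, ct P (F α) (a i') = 0 := by
        intro α hα
        have := hcon α hα
        have := hct P i' α hα
        have := hct0 P i' α hα
        omega
      have h4 : (∏ α ∈ I, F α).eval (algebraMap k K (a i')) ≠ 0 := by
        rw [Polynomial.eval_prod]
        exact Finset.prod_ne_zero_iff.2 fun α hα => (hD α hα).nroot _
      have h5 := ct_le_of_dvd P hdvd' h4
      rw [ct_prod P I F fun α hα => (hD α hα).nroot _, Finset.sum_eq_zero h3] at h5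
      omega
    have h2 : ∑ α ∈ I, (P.ord (δ α) - b α * cnt P (F α) - b α * ct P (F α) (a i0)) ≥
        ∑ α ∈ I, ((if α = β then 1 else 0) - ((b α : ℤ) * ct P (F α) (a i0))) := by
      refine Finset.sum_le_sum fun α hα => ?_
      split_ifs with h
      · subst h
        have := (hD α hα).one P i' (hiZ α hα) hβ1
        omega
      · have := (hD α hα).ge P
        omega
    have h3 : ∑ α ∈ I, ((if α = β then (1 : ℤ) else 0) - ((b α : ℤ) * ct P (F α) (a i0))) =
        1 - ∑ α ∈ I, (b α : ℤ) * ct P (F α) (a i0) := by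
      rw [Finset.sum_sub_distrib, Finset.sum_ite_eq' I β, if_pos hβ]
    rw [h3] at h2
    have := hsumB P
    omega

end Pool.Agent.N115.JT
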