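import Pool.Agent.N115.AN.Stm

/-!
The fibration which is defined by all multi-valued maps from a variety to the varieties of the
vectors whose powers are the values of a polynomial: the statements of the parts.
-/

set_option autoImplicit false

open FF Pool.Agent.W603.LV Pool.Agent.W602.GT Pool.Agent.Y190.BV Polynomial
open Pool.Agent.N115.AN (Fac)

namespace Pool.Agent.N115.JT

/-- **JT/1.** The values `y i` are algebraic over the field which is generated by the roots of
`F`. -/
def RootsAlg : Prop :=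
  ∀ (k K M Ω : Type) [Field k] [Field K] [Field M] [Field Ω] [Algebra k K] [Algebra k M]
    [Algebra K M] [IsScalarTower k K M] [Algebra k Ω] [Algebra K Ω] [IsScalarTower k K Ω]
    [IsAlgClosed Ω] (m N : ℕ), 1 ≤ m → ∀ (a : Fin (N + 1) → k) (F : K[X]), F ≠ 0 →
    ∀ (H : M[X]) (u : M) (T T' : Finset M[X]) (e : M[X] → ℕ),
    Fac (k := k) m (F.map (algebraMap K M)) H u T T' e →
    ∀ y : Fin (N + 1) → M, (∀ i, y i ^ m = H.eval (algebraMap k M (a i))) →
    ∀ i0, y i0 = 1 → ∀ (τ : M →ₐ[K] Ω) (i : Fin (N + 1)),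
      IsAlgebraic (IntermediateField.adjoin k (F.rootSet Ω)) (τ (y i))

/-- **JT/2.** The base field. -/
def BaseField : Prop :=
  ∀ (k L Ω : Type) [Field k] [Field L] [Field Ω] [Algebra k L] [Algebra k Ω] [Algebra L Ω]
    [IsScalarTower k L Ω] [CharZero k] [IsAlgClosed Ω] [Algebra.IsAlgebraic L Ω] (V : Set Ω),
    (∀ g : Ω ≃ₐ[L] Ω, ∀ v ∈ V, g v ∈ V) → ∀ L0 : IntermediateField k L,
    (∀ x : L, x ∈ L0 ↔ IsAlgebraic (IntermediateField.adjoin k V) (algebraMap L Ω x)) →
    (∀ v ∈ V, IsAlgebraic L0 v) ∧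
      Algebra.trdeg k L0 = Algebra.trdeg k (IntermediateField.adjoin k V)

/-- **JT/3.** The degree over the base field. -/
def DegreeDown : Prop :=
  ∀ (k L K' : Type) [Field k] [Field L] [Field K'] [Algebra k L] [Algebra k K'] [Algebra L K']
    [IsScalarTower k L K'] [CharZero k] [FiniteDimensional L K'] (L0 : IntermediateField k L),
    (∀ x : L, IsAlgebraic L0 x → x ∈ L0) → ∀ S : Set K', S.Finite →
    (∀ x ∈ S, IsAlgebraic L0 x) →
    FiniteDimensional L0 (IntermediateField.adjoin L0 S) ∧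
      Module.finrank L0 (IntermediateField.adjoin L0 S) ≤ Module.finrank L K'

/-- **JT/4.** Finitely many maps are enough. -/
def Select : Prop :=
  ∀ (k Ω : Type) [Field k] [Field Ω] [Algebra k Ω] (D : ℕ), Algebra.trdeg k Ω = D →
    ∀ (ι : Type) (V : ι → Set Ω) (s : ℕ), (D ≤ s ∨ (Finite ι ∧ Nat.card ι ≤ s)) →
    ∃ I : Finset ι, I.card ≤ s ∧
      ∀ i, ∀ x ∈ V i, IsAlgebraic (IntermediateField.adjoin k (⋃ i ∈ I, V i)) x

end Pool.Agent.N115.JT
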