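import Pool.Agent.N115.AN.Asm2
import Pool.Agent.N115.AN.LocC
import Pool.Agent.N849.AN.LocAB
import Pool.Agent.N92.AN.ConjF
import Pool.Agent.N115.JT.Stm

/-!
The polynomial and the discriminant of one multi-valued map.
-/

set_option autoImplicit false
set_option linter.unusedSectionVars false

open FF Pool.Agent.W603.LV Pool.Agent.W602.GT Pool.Agent.Y190.BV Polynomial

namespace Pool.Agent.N115.JT

open Pool.Agent.N115.AN (Fac LocA LocB LocC ConjF IsDisc conj_ge no_one exists_disc exists_gal
  loc_a loc_b loc_c)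

/-- The polynomial `F`, the number `b` and the discriminant `δ` of a multi-valued map with at most
`r` values; the places where `F` has a contact of order one with a node outside `Z` are zeros of
`δ` (beyond the content of `F`). -/
structure Dat {k K : Type} [Field k] [Field K] [Algebra k K] (r n : ℕ) {N : ℕ}
    (a : Fin (N + 1) → k) (Z : Finset (Fin (N + 1))) (F : K[X]) (b : ℕ) (δ : K) : Prop where
  monic : F.Monic
  sq : Squarefree F
  nroot : ∀ c : k, F.eval (algebraMap k K c) ≠ 0
  deg : F.natDegree + r * Z.card ≤ r * n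
  hb : b ≤ r * (r - 1)
  ne : δ ≠ 0
  ge : ∀ P : Place k K, b * cnt P F ≤ P.ord δ
  one : ∀ (P : Place k K) (i : Fin (N + 1)), i ∉ Z → ct P F (a i) = 1 →
    b * cnt P F + 1 ≤ P.ord δ

/-- **The Galois case.** -/
theorem gal_dat {k K M : Type} [Field k] [Field K] [Field M] [Algebra k K] [Algebra k M]
    [Algebra K M] [IsScalarTower k K M] [CharZero k] [IsAlgClosed k] [FiniteDimensional K M]
    [IsGalois K M] {r n m N : ℕ} (hm : 2 ≤ m) (hnN : n ≤ N)
    {a : Fin (N + 1) → k} (ha : Function.Injective a) {H : M[X]} (hH : H ≠ 0)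
    (hdeg : H.natDegree ≤ n) {y : Fin (N + 1) → M}
    (hy : ∀ i, y i ^ m = H.eval (algebraMap k M (a i))) {i0 : Fin (N + 1)} (hi0 : y i0 = 1)
    (hmult : ∀ p : M[X], Irreducible p → ¬ p ^ m ∣ H) {lam : Fin (N + 1) → k}
    (hgen : ∀ g h : M ≃ₐ[K] M, g (∑ i, algebraMap k M (lam i) * y i) =
      h (∑ i, algebraMap k M (lam i) * y i) → ∀ i, g (y i) = h (y i))
    (hfaith : ∀ g : M ≃ₐ[K] M, (∀ h : M ≃ₐ[K] M,
      g (h (∑ i, algebraMap k M (lam i) * y i)) = h (∑ i, algebraMap k M (lam i) * y i)) → g = 1)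
    (hcard : (Set.range fun g : M ≃ₐ[K] M =>
      g (∑ i, algebraMap k M (lam i) * y i)).ncard ≤ r) {Z : Finset (Fin (N + 1))}
    (hZ : ∀ i, i ∈ Z ↔ y i = 0) :
    ∃ (F : K[X]) (b : ℕ) (δ : K), Dat r n a Z F b δ ∧
      ∃ u T T' e, Fac (k := k) m (F.map (algebraMap K M)) H u T T' e := by
  set f0 : M := ∑ i, algebraMap k M (lam i) * y i with hf0
  have hfinG : Finite (M ≃ₐ[K] M) := inferInstance
  have hcard' : (Set.range fun (g : M ≃ₐ[K] M) (i : Fin (N + 1)) =>
      g (y i)).ncard ≤ r := by
    refine le_trans ?_ hcard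
    refine Set.ncard_le_ncard_of_injOn (fun v => ∑ i, algebraMap k M (lam i) * v i) ?_ ?_
      (Set.finite_range _)
    · rintro _ ⟨g, rfl⟩
      refine ⟨g, ?_⟩
      simp only [hf0, map_sum, map_mul]
      refine Finset.sum_congr rfl fun i _ => ?_
      rw [IsScalarTower.algebraMap_apply k K M, g.commutes]
    · rintro _ ⟨g, rfl⟩ _ ⟨h, rfl⟩ hgh
      funext i
      refine hgen g h ?_ i
      simp only [hf0, map_sum, map_mul]
      simp only at hgh
      have h3 : ∀ (g : M ≃ₐ[K] M) (c : k), g (algebraMap k M c) =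
          algebraMap k M c := fun g c => by
        rw [IsScalarTower.algebraMap_apply k K M, g.commutes]
      simp only [h3]
      exact hgh
  obtain ⟨F, hFm, hFsq, hFc, hFdeg, hfac, hirr⟩ := Pool.Agent.N92.AN.conj_f k K M r n m N a ha hnN
    (by omega) H y hH hdeg hy hmult hcard'
  have hF0 : F ≠ 0 := hFm.ne_zero
  obtain ⟨u1, T1, T1', e1, hf1⟩ := hfac 1
  have hmap1 : H.map ((1 : M ≃ₐ[K] M) : M →+* M) = H := by
    have : ((1 : M ≃ₐ[K] M) : M →+* M) = RingHom.id M := rfl
    rw [this, Polynomial.map_id]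
  rw [hmap1] at hf1
  have hI0 : Z.card = Nat.card {i // y i = 0} := by
    classical
    rw [Nat.card_eq_fintype_card, Fintype.card_subtype]
    congr 1
    ext i
    rw [hZ, Finset.mem_filter]
    simp
  -- the discriminant
  set f : M := algebraMap K M (F.eval (algebraMap k K (a i0))) * f0
    with hf
  have hc0 : algebraMap K M
      (F.eval (algebraMap k K (a i0))) ≠ 0 := (_root_.map_ne_zero _).2 (hFc _)
  obtain ⟨b, δ, hdisc, hδ, hb⟩ := exists_disc (K := K) f
  have hrange : (Set.range fun g : M ≃ₐ[K] M => g f).ncard ≤ r := by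
    have h2 : (Set.range fun g : M ≃ₐ[K] M => g f) =
        (fun x => algebraMap K M
          (F.eval (algebraMap k K (a i0))) * x) ''
          (Set.range fun g : M ≃ₐ[K] M => g f0) := by
      rw [← Set.range_comp]
      congr 1
      funext g
      change g f = _ * g f0
      rw [hf, map_mul, g.commutes]
    rw [h2]
    exact (Set.ncard_image_le (Set.finite_range _)).trans hcard
  have hbr : b ≤ r * (r - 1) := by
    rw [hb]
    exact Nat.mul_le_mul hrange (Nat.sub_le_sub_right hrange 1)
  have hfaith' : ∀ g : M ≃ₐ[K] M,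
      (∀ h : M ≃ₐ[K] M, g (h f) = h f) → g = 1 := by
    intro g hg
    apply hfaith g
    intro h
    have h2 := hg h
    rw [hf, map_mul, map_mul, h.commutes, g.commutes] at h2
    exact mul_left_cancel₀ hc0 h2
  have hloc := loc_c k K M f b δ hdisc hfaith'
  have hge : ∀ (P : Place k K) (W : Place k M) (e : ℕ), Over W P e →
      ∀ g : M ≃ₐ[K] M, Ge W (e * cnt P F) (g f) := fun P W e hW g =>
    conj_ge loc_a (by omega) hF0 hFc hy hi0 hfac lam hW g
  refine ⟨F, b, δ, ⟨hFm, hFsq, hFc, by rw [hI0]; exact hFdeg, hbr, hδ,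
    fun P => (hloc P (cnt P F) (hge P)).1, fun P i hi hj => ?_⟩, u1, T1, T1', e1, hf1⟩
  have hi' : y i ≠ 0 := fun h => hi ((hZ i).2 h)
  rcases (hloc P (cnt P F) (hge P)).2 with h2 | ⟨W, hW⟩
  · exact h2
  · exact absurd hj (no_one loc_b hm hnN ha hF0 hFc hH hdeg hy hfac hirr hW hi')

/-- **Fields generated by a linear combination of the values.** -/
theorem prim_dat (hR : RootsAlg) {k K E : Type} [Field k] [Field K] [Field E] [Algebra k K]
    [Algebra k E] [Algebra K E] [IsScalarTower k K E] [CharZero k] [IsAlgClosed k]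
    [FiniteDimensional K E] {r n m N : ℕ} (hfr : Module.finrank K E ≤ r) (hm : 2 ≤ m)
    (hnN : n ≤ N) {a : Fin (N + 1) → k} (ha : Function.Injective a) {H : E[X]} (hH : H ≠ 0)
    (hdeg : H.natDegree ≤ n) {y : Fin (N + 1) → E}
    (hy : ∀ i, y i ^ m = H.eval (algebraMap k E (a i))) {i0 : Fin (N + 1)} (hi0 : y i0 = 1)
    (hmult : ∀ p : E[X], Irreducible p → ¬ p ^ m ∣ H) {lam : Fin (N + 1) → k}
    (hlam : IntermediateField.adjoin K {∑ i, lam i • y i} = ⊤) {Z : Finset (Fin (N + 1))}
    (hZ : ∀ i, i ∈ Z ↔ y i = 0) :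
    ∃ (F : K[X]) (b : ℕ) (δ : K), Dat r n a Z F b δ ∧
      ∀ (Ω : Type) [Field Ω] [Algebra k Ω] [Algebra K Ω] [IsScalarTower k K Ω] [IsAlgClosed Ω]
        (τ : E →ₐ[K] Ω) (i : Fin (N + 1)),
        IsAlgebraic (IntermediateField.adjoin k (F.rootSet Ω)) (τ (y i)) := by
  have hr : 1 ≤ r := le_trans Module.finrank_pos hfr
  have hchK : CharZero K :=
    charZero_of_injective_algebraMap (algebraMap k K).injective
  obtain ⟨M, fM, aM, fdM, hgal, φ, hdet, hfaith, hcard⟩ := exists_gal
    (K := K) (∑ i, lam i • y i) hlam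
  let aC : Algebra k M :=
    ((algebraMap K M).comp (algebraMap k K)).toAlgebra
  have tow : IsScalarTower k K M := IsScalarTower.of_algebraMap_eq fun _ => rfl
  have hφc : ∀ c : k, φ (algebraMap k E c) = algebraMap k M c := by
    intro c
    rw [IsScalarTower.algebraMap_apply k K E, φ.commutes]
    rfl
  let algEM : Algebra E M := φ.toRingHom.toAlgebra
  have hchE : CharZero E := charZero_of_injective_algebraMap (algebraMap k E).injective
  have hsum : (∑ i, algebraMap k M (lam i) * φ (y i)) = φ (∑ i, lam i • y i) := by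
    rw [map_sum]
    refine Finset.sum_congr rfl fun i _ => ?_
    rw [Algebra.smul_def, map_mul, hφc]
  have hval : ∀ i, (fun i => φ (y i)) i ^ m =
      (H.map (φ : E →+* M)).eval (algebraMap k M (a i)) := by
    intro i
    simp only
    rw [← hφc, ← map_pow, hy i]
    change _ = (H.map (φ : E →+* M)).eval ((φ : E →+* M) _)
    rw [Polynomial.eval_map, Polynomial.eval₂_hom]
    rfl
  obtain ⟨F, b, δ, hD, u, T, T', e, hfac⟩ := gal_dat (k := k) (K := K) (M := M) (r := r) (n := n)
    (m := m) (N := N) hm hnN ha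
    (H := H.map (φ : E →+* M)) ((Polynomial.map_ne_zero_iff (φ : E →+* M).injective).2 hH)
    (Polynomial.natDegree_map_le.trans hdeg) (y := fun i => φ (y i)) hval (i0 := i0)
    (by simp only [hi0, map_one]) (by
      intro p hp hd
      obtain ⟨p0, h2, h3⟩ := Pool.Agent.N115.IM.exists_down (K := E) (K' := M) hH
        (by omega : 1 ≤ m) hp hd
      exact hmult p0 h2 h3) (lam := lam) (by
      intro g h hgh j
      rw [hsum] at hgh
      exact hdet g h hgh (y j)) (by
      intro g hg
      rw [hsum] at hg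
      exact hfaith g hg) (by
      rw [hsum]
      exact hcard.trans hfr) (Z := Z) (fun i => (hZ i).trans (map_eq_zero φ).symm)
  refine ⟨F, b, δ, hD, ?_⟩
  intro Ω _ _ _ _ _ τ i
  -- extend `τ` to `M`
  have tEM : IsScalarTower K E M := IsScalarTower.of_algebraMap_eq fun x => (φ.commutes x).symm
  let aEΩ : Algebra E Ω := τ.toRingHom.toAlgebra
  have tEΩ : IsScalarTower K E Ω := IsScalarTower.of_algebraMap_eq fun x => (τ.commutes x).symm
  have halg : Algebra.IsAlgebraic E M := Algebra.IsAlgebraic.tower_top (K := K) E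
  let τ' : M →ₐ[E] Ω := IsAlgClosed.lift
  have h1 := hR k K M Ω m N (by omega) a F hD.monic.ne_zero (H.map (φ : E →+* M)) u T T' e hfac
    (fun i => φ (y i)) hval i0 (by simp only [hi0, map_one]) (τ'.restrictScalars K) i
  have h2 : (τ'.restrictScalars K) (φ (y i)) = τ (y i) := τ'.commutes (y i)
  rwa [h2] at h1

/-- **One multi-valued map.** -/
theorem map_dat (hR : RootsAlg) {k K E : Type} [Field k] [Field K] [Field E] [Algebra k K]
    [Algebra k E] [Algebra K E] [IsScalarTower k K E] [CharZero k] [IsAlgClosed k]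
    [FiniteDimensional K E] {r n m N : ℕ} (hfr : Module.finrank K E ≤ r) (hm : 2 ≤ m)
    (hnN : n ≤ N) {a : Fin (N + 1) → k} (ha : Function.Injective a) {H : E[X]} (hH : H ≠ 0)
    (hHn : H.natDegree ≤ n) {y : Fin (N + 1) → E}
    (hy : ∀ i, y i ^ m = H.eval (algebraMap k E (a i)))
    (hmult : ∀ p : E[X], Irreducible p → ¬ p ^ m ∣ H) {i0 : Fin (N + 1)} (hi0 : y i0 ≠ 0)
    {Z : Finset (Fin (N + 1))} (hZ : ∀ i, i ∈ Z ↔ y i = 0) :
    ∃ (F : K[X]) (b : ℕ) (δ : K), Dat r n a Z F b δ ∧
      ∀ (Ω : Type) [Field Ω] [Algebra k Ω] [Algebra K Ω] [IsScalarTower k K Ω] [IsAlgClosed Ω]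
        (τ : E →ₐ[K] Ω) (i : Fin (N + 1)),
        IsAlgebraic (IntermediateField.adjoin k (F.rootSet Ω)) (τ (y i / y i0)) := by
  have hchK : CharZero K := charZero_of_injective_algebraMap (algebraMap k K).injective
  have hinj : Function.Injective fun i => algebraMap k E (a i) :=
    (algebraMap k E).injective.comp ha
  set z : Fin (N + 1) → E := fun i => y i / y i0 with hz
  set K1 : IntermediateField K E := IntermediateField.adjoin K (Set.range z) with hK1
  set z' : Fin (N + 1) → K1 := fun i => ⟨z i, IntermediateField.subset_adjoin K _ ⟨i, rfl⟩⟩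
    with hz'
  have hc0 : (y i0 ^ m)⁻¹ ≠ 0 := inv_ne_zero (pow_ne_zero _ hi0)
  set H1 : E[X] := C (y i0 ^ m)⁻¹ * H with hH1
  have hH10 : H1 ≠ 0 := mul_ne_zero (C_ne_zero.2 hc0) hH
  have hH1n : H1.natDegree ≤ n := by
    rw [hH1, natDegree_C_mul hc0]
    exact hHn
  have hev : ∀ i, z i ^ m = H1.eval (algebraMap k E (a i)) := by
    intro i
    rw [hH1, eval_mul, eval_C, ← hy i, hz]
    simp only [div_pow]
    rw [div_eq_mul_inv, mul_comm]
  have t1 : IsScalarTower k K1 E := IsScalarTower.of_algebraMap_eq fun _ => rfl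
  have t2 : IsScalarTower k K K1 := inferInstance
  set H2 : K1[X] := Lagrange.interpolate Finset.univ (fun i => algebraMap k K1 (a i))
    (fun i => z' i ^ m) with hH2
  have hinj1 : Set.InjOn (fun i => algebraMap k K1 (a i)) (Finset.univ : Finset (Fin (N + 1))) :=
    ((algebraMap k K1).injective.comp ha).injOn
  have hH2ev : ∀ i, H2.eval (algebraMap k K1 (a i)) = z' i ^ m := fun i =>
    Lagrange.eval_interpolate_at_node _ hinj1 (Finset.mem_univ i)
  have hH2deg : H2.degree < (Finset.univ : Finset (Fin (N + 1))).card :=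
    Lagrange.degree_interpolate_lt _ hinj1
  have hmap : H2.map (algebraMap K1 E) = H1 := by
    apply Polynomial.eq_of_degrees_lt_of_eval_index_eq (s := Finset.univ)
      (v := fun i => algebraMap k E (a i)) hinj.injOn
    · rw [degree_map]
      exact hH2deg
    · rw [Finset.card_univ, Fintype.card_fin]
      refine (degree_le_natDegree).trans_lt ?_
      exact_mod_cast (by omega : H1.natDegree < N + 1)
    · intro i _
      rw [← hev i]
      have h1 : algebraMap k E (a i) = algebraMap K1 E (algebraMap k K1 (a i)) :=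
        IsScalarTower.algebraMap_apply k K1 E _
      rw [h1, eval_map_algebraMap, aeval_algebraMap_apply_eq_algebraMap_eval, hH2ev i, map_pow]
      rfl
  have hH20 : H2 ≠ 0 := by
    intro h
    apply hH10
    rw [← hmap, h, Polynomial.map_zero]
  have hH2n : H2.natDegree ≤ n := by
    rw [← natDegree_map (algebraMap K1 E), hmap]
    exact hH1n
  have hfin1 : Module.finrank K K1 ≤ r := by
    refine le_trans ?_ hfr
    exact Submodule.finrank_le (Subalgebra.toSubmodule K1.toSubalgebra)
  -- the primitive element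
  have hgen : IntermediateField.adjoin K (Set.range z') = ⊤ := by
    have h1 : (IntermediateField.adjoin K (Set.range z')).map K1.val = K1 := by
      rw [IntermediateField.adjoin_map, ← Set.range_comp]
      rfl
    apply le_antisymm le_top
    intro x _
    have h2 : (x : E) ∈ (IntermediateField.adjoin K (Set.range z')).map K1.val := by
      rw [h1]
      exact x.2
    obtain ⟨x', hx', hxx⟩ := h2
    have h3 : x' = x := Subtype.ext hxx
    rw [← h3]
    exact hx'
  obtain ⟨lam, hlam⟩ := Pool.Agent.N813.IM.exists_prim (k := k) z' hgen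
  have hfd : FiniteDimensional K K1 := inferInstance
  obtain ⟨F, b, δ, hD, hval⟩ := prim_dat hR (k := k) (K := K) (E := K1) (r := r) (n := n) (m := m)
    (N := N) hfin1
    hm hnN ha hH20 hH2n (y := z') (fun i => (hH2ev i).symm) (i0 := i0) (by
      apply Subtype.ext
      exact div_self hi0) (by
      intro p hp hpm
      have h1 : (p.map (algebraMap K1 E)) ^ m ∣ H := by
        have h2 := Polynomial.map_dvd (algebraMap K1 E) hpm
        rw [Polynomial.map_pow, hmap, hH1] at h2
        exact (((isUnit_C.2 (IsUnit.mk0 _ hc0)).dvd_mul_left).1 h2)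
      obtain ⟨p', hp', hpp⟩ := Polynomial.exists_irreducible_of_natDegree_pos
        (f := p.map (algebraMap K1 E)) (by
          rw [natDegree_map]
          exact hp.natDegree_pos)
      exact hmult p' hp' ((pow_dvd_pow_of_dvd hpp m).trans h1)) hlam (Z := Z) (by
      intro i
      rw [hZ, Subtype.ext_iff]
      change _ ↔ y i / y i0 = 0
      rw [div_eq_zero_iff, or_iff_left hi0])
  refine ⟨F, b, δ, hD, ?_⟩
  intro Ω _ _ _ _ _ τ i
  exact hval Ω (τ.comp K1.val) i

end Pool.Agent.N115.JT
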