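import Pool.Agent.N115.JT.One
import Pool.Agent.N603.JT.RootsAlg
import Pool.Agent.N849.JT.BaseField
import Pool.Agent.N530.JT.Dd
import Pool.Agent.N966.JT.Select
import Pool.Agent.TH466.QG.Equiv

/-!
The fibration which is defined by a family of multi-valued rational maps to the varieties of the
vectors whose powers are the values of a polynomial.
-/

set_option autoImplicit false
set_option linter.unusedSectionVars false

open FF Pool.Agent.W603.LV Pool.Agent.Y190.BV Polynomial

namespace Pool.Agent.N115.JT

open Pool.Agent.W602.GT (GeneralType Ruled coords)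

/-- A multi-valued rational map, with at most `r` values, from the variety with function field `L`
to one of the varieties `X_m ⊆ P^N`, `m ≥ 2`, of the points `x` for which there is a polynomial of
degree at most `n` whose values at the `a i` are the `x i ^ m`: a finite extension `E` of `L` of
degree at most `r` and a point `y` of `X_m` over `E`, with polynomial `H`. It is assumed that `H` is
not divisible by the `m`-th power of a polynomial of degree at least `2` (this is automatic if
`n < 2 * m`), and that the closure of the image, whose function field is `coords k y`, is not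
ruled. -/
structure MultiMap (k L : Type) [Field k] [Field L] [Algebra k L] {N : ℕ} (a : Fin (N + 1) → k)
    (n r : ℕ) where
  m : ℕ
  two_le : 2 ≤ m
  E : Type
  [field : Field E]
  [algk : Algebra k E]
  [algL : Algebra L E]
  [tower : IsScalarTower k L E]
  [fin : FiniteDimensional L E]
  degree_le : Module.finrank L E ≤ r
  y : Fin (N + 1) → E
  H : Polynomial E
  ne : y ≠ 0
  deg : H.natDegree ≤ n
  val : ∀ i, y i ^ m = H.eval (algebraMap k E (a i))
  fac : ∀ q : Polynomial E, 2 ≤ q.natDegree → ¬ q ^ m ∣ H
  not_ruled : ¬ Ruled k (coords k y)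

attribute [instance] MultiMap.field MultiMap.algk MultiMap.algL MultiMap.tower MultiMap.fin

variable {k L : Type} [Field k] [Field L] [Algebra k L] {N n r : ℕ} {a : Fin (N + 1) → k}

/-- The values of a multi-valued map: the conjugates over `L` of the ratios of its coordinates. -/
def MultiMap.values (f : MultiMap k L a n r) : Set (AlgebraicClosure L) :=
  {v | ∃ (σ : f.E →ₐ[L] AlgebraicClosure L) (i j : Fin (N + 1)), f.y j ≠ 0 ∧
    v = σ (f.y i / f.y j)}

/-- The functions on `M` which are algebraic over the values of all the maps `f i`: the function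
field of the base of the fibration of `M` which is defined by these maps. -/
noncomputable def baseField {ι : Type*} (f : ι → MultiMap k L a n r) : IntermediateField k L :=
  ((algebraicClosure (IntermediateField.adjoin k (⋃ i, (f i).values))
    (AlgebraicClosure L)).restrictScalars k).comap (IsScalarTower.toAlgHom k L (AlgebraicClosure L))

theorem mem_baseField {ι : Type*} (f : ι → MultiMap k L a n r) (x : L) : x ∈ baseField f ↔
    IsAlgebraic (IntermediateField.adjoin k (⋃ i, (f i).values))
      (algebraMap L (AlgebraicClosure L) x) :=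
  mem_algebraicClosure_iff

theorem trans_alg {k Ω : Type} [Field k] [Field Ω] [Algebra k Ω] {A B : IntermediateField k Ω}
    (h : ∀ x ∈ A, IsAlgebraic B x) {v : Ω} (hv : IsAlgebraic A v) : IsAlgebraic B v := by
  let C : IntermediateField B Ω := algebraicClosure B Ω
  let ψ : A →+* C :=
    { toFun := fun x => ⟨x, mem_algebraicClosure_iff.2 (h x x.2)⟩
      map_one' := rfl
      map_mul' := fun x y => rfl
      map_zero' := rfl
      map_add' := fun x y => rfl }
  let _ : Algebra A C := ψ.toAlgebra
  have : IsScalarTower A C Ω := IsScalarTower.of_algebraMap_eq fun x => rfl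
  have h3 : IsAlgebraic C v := hv.extendScalars ψ.injective
  have h7 : Algebra.IsAlgebraic B C := algebraicClosure.isAlgebraic B Ω
  exact h3.restrictScalars B

theorem adjoin_alg {k Ω : Type} [Field k] [Field Ω] [Algebra k Ω] {S : Set Ω}
    {B : IntermediateField k Ω} (h : ∀ x ∈ S, IsAlgebraic B x) :
    ∀ x ∈ IntermediateField.adjoin k S, IsAlgebraic B x := by
  let C : IntermediateField B Ω := algebraicClosure B Ω
  have h1 : IntermediateField.adjoin k S ≤ C.restrictScalars k := by
    rw [IntermediateField.adjoin_le_iff]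
    exact fun x hx => mem_algebraicClosure_iff.2 (h x hx)
  exact fun x hx => mem_algebraicClosure_iff.1 (h1 hx)

section

variable {ι : Type*} (f : ι → MultiMap k L a n r)

theorem values_inv (g : AlgebraicClosure L ≃ₐ[L] AlgebraicClosure L) :
    ∀ v ∈ ⋃ i, (f i).values, g v ∈ ⋃ i, (f i).values := by
  intro v hv
  rw [Set.mem_iUnion] at hv ⊢
  obtain ⟨i, σ, i', j, hj, rfl⟩ := hv
  exact ⟨i, (g : AlgebraicClosure L →ₐ[L] AlgebraicClosure L).comp σ, i', j, hj, rfl⟩

theorem base_main [CharZero k] : (∀ v ∈ ⋃ i, (f i).values, IsAlgebraic (baseField f) v) ∧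
    Algebra.trdeg k (baseField f) =
      Algebra.trdeg k (IntermediateField.adjoin k (⋃ i, (f i).values)) :=
  Pool.Agent.N849.JT.main k L (AlgebraicClosure L) (⋃ i, (f i).values) (values_inv f)
    (baseField f) (mem_baseField f)

/-- the base field is algebraically closed in `L` -/
theorem base_closed (x : L) (hx : IsAlgebraic (baseField f) x) : x ∈ baseField f := by
  rw [mem_baseField]
  set A := IntermediateField.adjoin k (⋃ i, (f i).values) with hA
  -- the image of the base field
  let φ : L →ₐ[k] AlgebraicClosure L := IsScalarTower.toAlgHom k L (AlgebraicClosure L)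
  let B : IntermediateField k (AlgebraicClosure L) := (baseField f).map φ
  have h1 : ∀ z ∈ B, IsAlgebraic A z := by
    rintro _ ⟨z, hz, rfl⟩
    exact (mem_baseField f z).1 hz
  refine trans_alg h1 ?_
  let ψ : baseField f →+* B :=
    { toFun := fun z => ⟨φ z, z, z.2, rfl⟩
      map_one' := Subtype.ext (map_one _)
      map_mul' := fun x y => Subtype.ext (map_mul _ _ _)
      map_zero' := Subtype.ext (map_zero _)
      map_add' := fun x y => Subtype.ext (map_add _ _ _) }
  let _ : Algebra (baseField f) B := ψ.toAlgebra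
  have t1 : IsScalarTower (baseField f) B (AlgebraicClosure L) :=
    IsScalarTower.of_algebraMap_eq fun x => rfl
  have h2 : IsAlgebraic (baseField f) (algebraMap L (AlgebraicClosure L) x) := hx.algebraMap
  exact h2.extendScalars ψ.injective

/-- the values of the coordinates are algebraic over the base field -/
theorem base_coords [CharZero k] (i : ι) (i' j : Fin (N + 1)) (hj : (f i).y j ≠ 0) :
    IsAlgebraic (baseField f) ((f i).y i' / (f i).y j) := by
  let σ : (f i).E →ₐ[L] AlgebraicClosure L := IsAlgClosed.lift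
  have h1 : IsAlgebraic (baseField f) (σ ((f i).y i' / (f i).y j)) :=
    (base_main f).1 _ (Set.mem_iUnion.2 ⟨i, σ, i', j, hj, rfl⟩)
  exact (isAlgebraic_algHom_iff (σ.restrictScalars (baseField f)) σ.toRingHom.injective).1 h1

/-- **The base of the fibration is of general type.** -/
theorem base_general [CharZero k] [IsAlgClosed k] (hn : 1 ≤ n) (hr : 1 ≤ r) {s : ℕ}
    (hs : 1 ≤ s) (hN : 4 * (s * (r * n)) + (s * (r * n) + s * (r * (r - 1)) + 1) ^ 2 <
      2 * (N + 1)) (ha : Function.Injective a) {D : ℕ} (hD : Algebra.trdeg k L = D)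
    (hfin : D ≤ s ∨ Finite ι ∧ Nat.card ι ≤ s) {w : ℕ}
    (hw : Algebra.trdeg k (baseField f) = w) : GeneralType k (baseField f) w := by
  classical
  have hsr : n ≤ s * (r * n) := by
    calc n = 1 * (1 * n) := by ring
      _ ≤ s * (r * n) := Nat.mul_le_mul hs (Nat.mul_le_mul_right _ hr)
  have hsn : s * n ≤ s * (r * n) := Nat.mul_le_mul_left _ (Nat.le_mul_of_pos_left _ hr)
  have hnN : n ≤ N := by omega
  have hN1 : 1 ≤ N := by omega
  have hsnN : s * n < N + 1 := by omega
  -- finitely many maps are enough
  let T : Type := {V : Set (AlgebraicClosure L) // ∃ i, V = (f i).values}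
  choose α hα using fun t : T => t.2
  have hDΩ : Algebra.trdeg k (AlgebraicClosure L) = D := by
    rw [← hD, ← trdeg_add_eq k L (A := AlgebraicClosure L)]
    have h1 : Algebra.trdeg L (AlgebraicClosure L) = 0 := by
      rw [trdeg_eq_zero_iff]
      infer_instance
    rw [h1, add_zero]
  have hT : D ≤ s ∨ (Finite T ∧ Nat.card T ≤ s) := by
    refine hfin.imp id ?_
    rintro ⟨h1, h2⟩
    have hsurj : Function.Surjective fun i : ι => (⟨(f i).values, i, rfl⟩ : T) := by
      rintro ⟨V, i, rfl⟩
      exact ⟨i, rfl⟩
    have h3 : Finite T := Finite.of_surjective _ hsurj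
    refine ⟨h3, le_trans ?_ h2⟩
    exact Nat.card_le_card_of_surjective _ hsurj
  obtain ⟨I, hI, hsel⟩ := Pool.Agent.N966.JT.select k (AlgebraicClosure L) D hDΩ T
    (fun t => t.1) s hT
  -- one map
  have hone := fun t : T => one_map (Ω := AlgebraicClosure L) Pool.Agent.N603.JT.RootsAlg.main
    Pool.Agent.N530.JT.dd (f (α t)).two_le hnN hN1 (f (α t)).degree_le ha (f (α t)).ne (f (α t)).deg
    (f (α t)).val (f (α t)).fac (f (α t)).not_ruled (baseField f) (base_closed f)
    (base_coords f (α t))
  choose Z hZ hdat using hone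
  obtain ⟨i0, hi0⟩ : ∃ i0 : Fin (N + 1), ∀ t ∈ I, i0 ∉ Z t := by
    by_contra hcon
    push Not at hcon
    have h1 : (Finset.univ : Finset (Fin (N + 1))) ⊆ I.biUnion Z := by
      intro i _
      obtain ⟨t, ht, hi⟩ := hcon i
      exact Finset.mem_biUnion.2 ⟨t, ht, hi⟩
    have h2 := Finset.card_le_card h1
    rw [Finset.card_univ, Fintype.card_fin] at h2
    have h3 : (I.biUnion Z).card ≤ I.card * n :=
      Finset.card_biUnion_le_card_mul _ _ _ fun t _ => hZ t
    have h4 : I.card * n ≤ s * n := Nat.mul_le_mul_right _ hI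
    omega
  have hdat' : ∀ t : T, ∃ (F : (baseField f)[X]) (b : ℕ) (δ : baseField f), t ∈ I →
      (Dat r n a (Z t) F b δ ∧ ∀ (σ : (f (α t)).E →ₐ[L] AlgebraicClosure L)
        (i j : Fin (N + 1)), (f (α t)).y j ≠ 0 →
        IsAlgebraic (IntermediateField.adjoin k (F.rootSet (AlgebraicClosure L)))
          (σ ((f (α t)).y i / (f (α t)).y j))) := by
    intro t
    by_cases ht : t ∈ I
    · obtain ⟨F, b, δ, h⟩ := hdat t i0 (hi0 t ht)
      exact ⟨F, b, δ, fun _ => h⟩
    · exact ⟨0, 0, 0, fun h => absurd h ht⟩
  choose F b δ hFd using hdat'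
  have tΩ : IsScalarTower k (baseField f) (AlgebraicClosure L) := inferInstance
  refine comb (Ω := AlgebraicClosure L) hr hw hN ha I hI (Z := Z) (F := F) (b := b) (δ := δ)
    (fun t ht => (hFd t ht).1) hi0 fun x => ?_
  -- the base field is algebraic over the roots
  set B := IntermediateField.adjoin k (⋃ t ∈ I, (F t).rootSet (AlgebraicClosure L)) with hB
  have h1 : ∀ t ∈ I, ∀ v ∈ (f (α t)).values, IsAlgebraic B v := by
    rintro t ht _ ⟨σ, i, j, hj, rfl⟩
    refine trans_alg ?_ ((hFd t ht).2 σ i j hj)
    refine adjoin_alg fun z hz => ?_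
    exact isAlgebraic_algebraMap (⟨z, IntermediateField.subset_adjoin k _
      (Set.mem_biUnion ht hz)⟩ : B)
  have h2 : ∀ i, ∀ v ∈ (f i).values, IsAlgebraic B v := by
    intro i v hv
    refine trans_alg ?_ (hsel ⟨(f i).values, i, rfl⟩ v hv)
    refine adjoin_alg fun z hz => ?_
    simp only [Set.mem_iUnion] at hz
    obtain ⟨t, ht, hz⟩ := hz
    rw [hα t] at hz
    exact h1 t ht z hz
  have h3 := (mem_baseField f x.1).1 x.2
  refine trans_alg ?_ h3
  refine adjoin_alg fun z hz => ?_
  rw [Set.mem_iUnion] at hz
  obtain ⟨i, hz⟩ := hz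
  exact h2 i z hz

/-- the universal property of the fibration -/
theorem base_le (L1 : IntermediateField k L) (hcl : ∀ x : L, IsAlgebraic L1 x → x ∈ L1)
    (h : ∀ i, ∀ v ∈ (f i).values, IsAlgebraic L1 v) : baseField f ≤ L1 := by
  intro x hx
  apply hcl
  rw [mem_baseField] at hx
  let φ : L →ₐ[k] AlgebraicClosure L := IsScalarTower.toAlgHom k L (AlgebraicClosure L)
  let B : IntermediateField k (AlgebraicClosure L) := L1.map φ
  let ψ : L1 →+* B :=
    { toFun := fun z => ⟨φ z, z, z.2, rfl⟩
      map_one' := Subtype.ext (map_one _)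
      map_mul' := fun x y => Subtype.ext (map_mul _ _ _)
      map_zero' := Subtype.ext (map_zero _)
      map_add' := fun x y => Subtype.ext (map_add _ _ _) }
  let _ : Algebra L1 B := ψ.toAlgebra
  have t1 : IsScalarTower L1 B (AlgebraicClosure L) :=
    IsScalarTower.of_algebraMap_eq fun x => rfl
  have h1 : ∀ v ∈ ⋃ i, (f i).values, IsAlgebraic B v := by
    intro v hv
    rw [Set.mem_iUnion] at hv
    obtain ⟨i, hv⟩ := hv
    exact (h i v hv).extendScalars ψ.injective
  have h2 : IsAlgebraic B (algebraMap L (AlgebraicClosure L) x) :=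
    trans_alg (adjoin_alg h1) hx
  have hsurj : Function.Surjective ψ := by
    rintro ⟨_, z, hz, rfl⟩
    exact ⟨⟨z, hz⟩, rfl⟩
  have halg : Algebra.IsAlgebraic L1 B := ⟨fun z => by
    obtain ⟨z', rfl⟩ := hsurj z
    exact isAlgebraic_algebraMap (R := L1) (A := B) z'⟩
  have h3 : IsAlgebraic L1 (algebraMap L (AlgebraicClosure L) x) := h2.restrictScalars L1
  exact (isAlgebraic_algebraMap_iff (algebraMap L (AlgebraicClosure L)).injective).1 h3

/-- the dimension of the base is at least the dimension of the image of each of the maps -/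
theorem base_trdeg [CharZero k] (i : ι) :
    Algebra.trdeg k (coords k (f i).y) ≤ Algebra.trdeg k (baseField f) := by
  rw [(base_main f).2]
  let σ : (f i).E →ₐ[L] AlgebraicClosure L := IsAlgClosed.lift
  let φ : (f i).E →ₐ[k] AlgebraicClosure L := σ.restrictScalars k
  have h1 : coords k (f i).y ≤
      (IntermediateField.adjoin k (⋃ i, (f i).values)).comap φ := by
    unfold Pool.Agent.W602.GT.coords
    rw [IntermediateField.adjoin_le_iff]
    rintro _ ⟨i', j, hj, rfl⟩
    exact IntermediateField.subset_adjoin k _ (Set.mem_iUnion.2 ⟨i, σ, i', j, hj, rfl⟩)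
  let ψ : coords k (f i).y →ₐ[k] IntermediateField.adjoin k (⋃ i, (f i).values) :=
    { toFun := fun z => ⟨φ z, h1 z.2⟩
      map_one' := Subtype.ext (map_one _)
      map_mul' := fun x y => Subtype.ext (map_mul _ _ _)
      map_zero' := Subtype.ext (map_zero _)
      map_add' := fun x y => Subtype.ext (map_add _ _ _)
      commutes' := fun c => Subtype.ext (φ.commutes c) }
  exact trdeg_le_of_injective ψ ψ.toRingHom.injective

/-- **The main theorem.** -/
theorem main_thm [CharZero k] [IsAlgClosed k] (hn : 1 ≤ n) (hr : 1 ≤ r) {s : ℕ}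
    (hs : 1 ≤ s) (hN : 4 * (s * (r * n)) + (s * (r * n) + s * (r * (r - 1)) + 1) ^ 2 <
      2 * (N + 1)) (ha : Function.Injective a) {D : ℕ} (hD : Algebra.trdeg k L = D)
    (hfin : D ≤ s ∨ Finite ι ∧ Nat.card ι ≤ s) :
    ∃ w ≤ D, GeneralType k (baseField f) w ∧
      (∀ i, ∀ v ∈ (f i).values, IsAlgebraic (baseField f) v) ∧
      (∀ x : L, IsAlgebraic (baseField f) x → x ∈ baseField f) ∧
      (∀ L1 : IntermediateField k L, (∀ x : L, IsAlgebraic L1 x → x ∈ L1) →
        (∀ i, ∀ v ∈ (f i).values, IsAlgebraic L1 v) → baseField f ≤ L1) ∧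
      (∀ i, Algebra.trdeg k (coords k (f i).y) ≤ w) ∧
      (Algebra.IsAlgebraic (IntermediateField.adjoin k (⋃ i, (f i).values))
        (AlgebraicClosure L) → GeneralType k L D) := by
  have h1 : Algebra.trdeg k (baseField f) ≤ D := by
    rw [← hD]
    exact trdeg_le_of_injective (baseField f).val (baseField f).val.toRingHom.injective
  obtain ⟨w, hw⟩ : ∃ w : ℕ, Algebra.trdeg k (baseField f) = w :=
    Cardinal.lt_aleph0.1 (lt_of_le_of_lt h1 (Cardinal.natCast_lt_aleph0))
  have hwD : w ≤ D := by
    rw [hw] at h1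
    exact_mod_cast h1
  have hgen := base_general f hn hr hs hN ha hD hfin hw
  refine ⟨w, hwD, hgen, fun i v hv => (base_main f).1 v (Set.mem_iUnion.2 ⟨i, hv⟩),
    base_closed f, base_le f, fun i => hw ▸ base_trdeg f i, fun halg => ?_⟩
  have htop : baseField f = ⊤ := by
    rw [eq_top_iff]
    intro x _
    exact (mem_baseField f x).2 (halg.isAlgebraic _)
  let e : baseField f ≃ₐ[k] L :=
    (IntermediateField.equivOfEq htop).trans IntermediateField.topEquiv
  have h2 := Pool.Agent.TH466.QG.general_of_equiv e hgen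
  have h3 : w = D := by
    have h4 := h2.1
    rw [hD] at h4
    exact_mod_cast h4.symm
  rwa [h3] at h2

end

end Pool.Agent.N115.JT
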