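import Pool.Agent.N895.IM.Est

/-!
Forms attached to a polynomial over a function field, and their orders on regular and on
logarithmic vector fields (compare `Pool.Agent.N895.IM.Est` and `Pool.Agent.N895.IM.Core`).
-/

set_option autoImplicit false
set_option linter.unusedSectionVars false

open FF Pool.Agent.W603.LV Pool.Agent.W602.GT Pool.Agent.Y190.BV Cardinal
open Pool.Agent.N895.IM

namespace Pool.Agent.N115.JT

section

variable {k K L : Type} [Field k] [Field K] [Field L] [Algebra k K] [Algebra k L] [Algebra K L]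
  [IsScalarTower k K L]

variable {ι : Type} [Fintype ι] {w q d : ℕ}

variable [FiniteDimensional K L] [IsGalois K L]

/-- **The order of the forms at the places of `K`.** -/
theorem ge_phi_base2 [CharZero k] {P : Place k K} {b : Bool}
    (D : Fin w → Derivation k K K) (hD : ∀ i, DKind b P (D i)) (f : ℕ → K) {c0 : ℤ}
    (hf : ∀ j < d + 1, Ge P c0 (f j)) {j0 : ℕ} (hfj0 : f j0 ≠ 0) (hc0 : P.ord (f j0) = c0)
    (a : Fin q → k) (ha : Function.Injective a) (A : ℕ) (c : Fin q → ℕ) (hcA : ∀ i, c i ≤ A)
    (h0 : ∀ i, ev K (d + 1) f (algebraMap k K (a i)) ≠ 0)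
    (hram : b = true → ∀ i, P.ord (ev K (d + 1) f (algebraMap k K (a i))) = c0 ∨
      (A : ℤ) ≤ ((A : ℤ) - c i) * (P.ord (ev K (d + 1) f (algebraMap k K (a i))) - c0))
    {lead : K} (hlead : lead ≠ 0) (r : Fin d → L) (hr : Function.Injective r)
    (hroot : ∀ i, ev L (d + 1) f (r i) = 0)
    (hcoef : ∀ j, algebraMap K L (f j) = algebraMap K L lead *
      (∏ i, (Polynomial.X - Polynomial.C (r i))).coeff j)
    (J : ι → Fin w → L) (hJ : ∀ l j, ∃ i, J l j = r i)
    (hcov : ∀ i, (∃ y : k, r i = algebraMap k L y) ∨ ∃ l j, J l j = r i)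
    (hbound : A * (d + w * Fintype.card ι) < ∑ i, c i)
    (ψ : K) (hψ : ψ = 1 ∨ ∃ (i : Fin d) (y : k), ψ = Algebra.norm K (r i - algebraMap k L y)) :
    Ge P ((∑ i, (c i : ℤ) - A * (d + w * Fintype.card ι) - 1) *
      (Module.finrank K L * (P.ord lead - c0))) (phi lead A c a J (d + 1) f ψ D) := by
  classical
  obtain ⟨S, T, _, hT, hsum⟩ := exists_places_over (K' := L) P
  have hSne : S.Nonempty := by
    by_contra hcon
    rw [Finset.not_nonempty_iff_eq_empty] at hcon
    rw [hcon, Finset.sum_empty] at hsum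
    have : 0 < Module.finrank K L := Module.finrank_pos
    omega
  obtain ⟨W, hW⟩ := hSne
  obtain ⟨e, hWP, _⟩ := hT W hW
  have hψ' : Ge W (- ∑ s : L ≃ₐ[K] L, TT (W.comp (rs s)) r) (algebraMap K L ψ) := by
    have hTT : 0 ≤ ∑ s : L ≃ₐ[K] L, TT (W.comp (rs s)) r :=
      Finset.sum_nonneg fun s _ => TT_nonneg _ r
    rcases hψ with rfl | ⟨i, y, rfl⟩
    · rw [map_one]
      exact Ge.one.mono (by omega)
    · rw [← Finset.sum_neg_distrib]
      refine ge_norm _ fun s => ?_
      refine (ge_sub_const _ (r i) y).mono ?_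
      have : tau (W.comp (rs s)) (r i) ≤ TT (W.comp (rs s)) r :=
        Finset.single_le_sum (fun j _ => tau_nonneg _ (r j)) (Finset.mem_univ i)
      omega
  have h1 := ge_phi' hWP (b := b) D hD f hf hfj0 hc0 a ha A c hcA h0 hram hlead r hr
    hroot hcoef J hJ hcov hbound ψ hψ'
  have hc1 : ((A : ℤ) * (d + w * Fintype.card ι)) + 1 ≤ ∑ i, (c i : ℤ) := by
    exact_mod_cast hbound
  have hTs : ∀ s : L ≃ₐ[K] L, (e : ℤ) * (P.ord lead - c0) ≤ TT (W.comp (rs s)) r := by
    intro s
    have hVP := over_rs hWP s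
    have h2 := ge_c0 hVP hfj0 hc0 r hcoef
    rw [hVP.2] at h2
    linarith
  have hcard : Fintype.card (L ≃ₐ[K] L) = Module.finrank K L := by
    rw [← Nat.card_eq_fintype_card]
    exact IsGalois.card_aut_eq_finrank K L
  have hTsum : (Module.finrank K L : ℤ) * (e * (P.ord lead - c0)) ≤
      ∑ s : L ≃ₐ[K] L, TT (W.comp (rs s)) r := by
    have h2 := Finset.sum_le_sum fun s (_ : s ∈ Finset.univ) => hTs s
    rw [Finset.sum_const, Finset.card_univ, hcard, nsmul_eq_mul] at h2
    exact h2
  rcases h1 with h1 | h1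
  · left
    exact (map_eq_zero _).1 h1
  · right
    rw [hWP.2] at h1
    have he : (0 : ℤ) < e := by exact_mod_cast hWP.1
    have h3 : (e : ℤ) * ((∑ i, (c i : ℤ) - A * (d + w * Fintype.card ι) - 1) *
        (Module.finrank K L * (P.ord lead - c0))) ≤
        e * P.ord (phi lead A c a J (d + 1) f ψ D) := by
      refine le_trans ?_ h1
      calc (e : ℤ) * ((∑ i, (c i : ℤ) - A * (d + w * Fintype.card ι) - 1) *
          (Module.finrank K L * (P.ord lead - c0))) =
          (∑ i, (c i : ℤ) - A * (d + w * Fintype.card ι) - 1) *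
            (Module.finrank K L * (e * (P.ord lead - c0))) := by ring
        _ ≤ _ := mul_le_mul_of_nonneg_left hTsum (by linarith)
    exact le_of_mul_le_mul_left h3 he


end

/-- Forms which vanish to a high order (compare `Pool.Agent.Y190.BV.core'`). -/
theorem forms2 {k K : Type} [Field k] [Field K] [Algebra k K] [IsAlgClosed k] [CharZero k]
    {L : Type} [Field L] [Algebra k L] [Algebra K L]
    [IsScalarTower k K L] [FiniteDimensional K L] [IsGalois K L] {w R : ℕ}
    (htr : Algebra.trdeg k K = w) (F : Polynomial K) (hF : F.Separable)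
    (hs : (F.map (algebraMap K L)).Splits)
    (hS : Algebra.IsAlgebraic (Algebra.adjoin k (F.rootSet L)) L)
    {q : ℕ} (a : Fin q → k) (ha : Function.Injective a) (A : ℕ) (c : Fin q → ℕ)
    (hcA : ∀ i, c i ≤ A)
    (hbound : A * (F.natDegree + (w + R) * (F.natDegree + 1 - w)) < ∑ i, c i)
    (h0 : ∀ i, F.eval (algebraMap k K (a i)) ≠ 0)
    (i0 : Fin q) :
    ∃ M : ℕ, 0 < M ∧ ∃ (ω : Fin (w + 1) → (Fin w → Derivation k K K) → K) (x : Fin w → K),
      IsTranscendenceBasis k x ∧ (∀ j, IsPluri M (ω j)) ∧ (∃ D, ω 0 D ≠ 0) ∧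
      (∀ i D, ω i.succ D = ω 0 D * x i) ∧
      ∀ (b : Bool) (P : Place k K) (j0 : ℕ), F.coeff j0 ≠ 0 →
        (∀ j, F.coeff j = 0 ∨ P.ord (F.coeff j0) ≤ P.ord (F.coeff j)) →
        (b = true → ∀ i, P.ord (F.eval (algebraMap k K (a i))) = P.ord (F.coeff j0) ∨
          (A : ℤ) ≤ ((A : ℤ) - c i) *
            (P.ord (F.eval (algebraMap k K (a i))) - P.ord (F.coeff j0))) →
        ∀ j D, (∀ i, DKind b P (D i)) → Ge P ((R : ℤ) * M *
          (P.ord (F.eval (algebraMap k K (a i0))) - P.ord (F.coeff j0))) (ω j D) := by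
  classical
  have hF0 : F ≠ 0 := hF.ne_zero
  have hchK : CharZero K := charZero_of_injective_algebraMap (algebraMap k K).injective
  have hinf : Infinite k := inferInstance
  obtain ⟨r, hr, hroot, hcoef⟩ := exists_roots (L := L) F hF hs
  have hlead : F.leadingCoeff ≠ 0 := Polynomial.leadingCoeff_ne_zero.2 hF0
  have hrange : F.rootSet L ⊆ Set.range r := by
    intro x hx
    rw [Polynomial.mem_rootSet] at hx
    have h1 : (F.map (algebraMap K L)).eval x = 0 := by
      rw [Polynomial.eval_map_algebraMap]; exact hx.2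
    have h2 : F.map (algebraMap K L) = Polynomial.C (algebraMap K L F.leadingCoeff) *
        ∏ i, (Polynomial.X - Polynomial.C (r i)) := by
      ext j
      rw [Polynomial.coeff_map, Polynomial.coeff_C_mul]
      exact hcoef j
    rw [h2, Polynomial.eval_mul, Polynomial.eval_C, Polynomial.eval_prod] at h1
    have h3 := (mul_eq_zero.1 h1).resolve_left ((map_ne_zero _).2 hlead)
    obtain ⟨i, _, hi⟩ := Finset.prod_eq_zero_iff.1 h3
    rw [Polynomial.eval_sub, Polynomial.eval_X, Polynomial.eval_C, sub_eq_zero] at hi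
    exact ⟨i, hi.symm⟩
  have hS : Algebra.IsAlgebraic (Algebra.adjoin k (Set.range r)) L := by
    have hle := Algebra.adjoin_mono (R := k) hrange
    let _ : Algebra (Algebra.adjoin k (F.rootSet L)) (Algebra.adjoin k (Set.range r)) :=
      (Subalgebra.inclusion hle).toRingHom.toAlgebra
    have : IsScalarTower (Algebra.adjoin k (F.rootSet L)) (Algebra.adjoin k (Set.range r)) L :=
      IsScalarTower.of_algebraMap_eq fun x => rfl
    exact Algebra.IsAlgebraic.extendScalars (R := Algebra.adjoin k (F.rootSet L))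
      (Subalgebra.inclusion_injective hle)
  have htrL : Algebra.trdeg k L = w := by rw [trdeg_ext (K := K), htr]
  obtain ⟨ι, hι, hιne, J, hwd, hcard, hJb, hJr, hcov⟩ := exists_families htrL r hS
  obtain ⟨ii, yy, hbas⟩ := exists_norm_basis (K := K) htr r hS
  set x : Fin w → K := fun j => Algebra.norm K (r (ii j) - algebraMap k L (yy j)) with hx
  have hb1 : A * (F.natDegree + (w + R) * Fintype.card ι) < ∑ i, c i :=
    lt_of_le_of_lt (Nat.mul_le_mul_left _ (Nat.add_le_add_left
      (Nat.mul_le_mul_left _ hcard) _)) hbound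
  have hb2 : A * (F.natDegree + w * Fintype.card ι) < ∑ i, c i :=
    lt_of_le_of_lt (Nat.mul_le_mul_left _ (Nat.add_le_add_left
      (Nat.mul_le_mul_right _ (Nat.le_add_right _ _)) _)) hb1
  have hA : 0 < A := by
    rcases Nat.eq_zero_or_pos A with h | h
    · exfalso
      rw [h, zero_mul] at hb2
      have : ∑ i, c i = 0 := Finset.sum_eq_zero fun i _ => by
        have := hcA i
        omega
      omega
    · exact h
  have h0' : ∀ i, ev K (F.natDegree + 1) F.coeff (algebraMap k K (a i)) ≠ 0 := fun i => by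
    rw [ev_eq_eval]; exact h0 i
  have hroot' : ∀ i, ev L (F.natDegree + 1) F.coeff (r i) = 0 := fun i => by
    rw [ev_eq_aeval]; exact hroot i
  have hmin : ∀ P : Place k K, ∃ j0, F.coeff j0 ≠ 0 ∧
      ∀ j, F.coeff j = 0 ∨ P.ord (F.coeff j0) ≤ P.ord (F.coeff j) := by
    intro P
    obtain ⟨j0, hj0, hj1⟩ := Finset.exists_min_image F.support (fun j => P.ord (F.coeff j))
      (Polynomial.support_nonempty.2 hF0)
    refine ⟨j0, Polynomial.mem_support_iff.1 hj0, fun j => ?_⟩
    by_cases hj : F.coeff j = 0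
    · exact Or.inl hj
    · exact Or.inr (hj1 j (Polynomial.mem_support_iff.2 hj))
  let ψ : Fin (w + 1) → K := Fin.cases 1 x
  have hψ : ∀ j, ψ j = 1 ∨ ∃ (i : Fin F.natDegree) (y : k),
      ψ j = Algebra.norm K (r i - algebraMap k L y) := by
    intro j
    refine Fin.cases ?_ (fun j => ?_) j
    · exact Or.inl rfl
    · exact Or.inr ⟨ii j, yy j, rfl⟩
  set g := Module.finrank K L with hg
  have hg0 : 0 < g := Module.finrank_pos
  set κ : ℤ := ∑ i, (c i : ℤ) - A * (F.natDegree + w * Fintype.card ι) - 1 with hκ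
  have hκ1 : (R : ℤ) * (A * Fintype.card ι) ≤ κ := by
    have h1 : ((A * (F.natDegree + (w + R) * Fintype.card ι) : ℕ) : ℤ) + 1 ≤
        ((∑ i, c i : ℕ) : ℤ) := by exact_mod_cast hb1
    push_cast at h1
    rw [hκ]
    nlinarith
  have hκ0 : 0 ≤ κ := le_trans (by positivity) hκ1
  have hFa : F.eval (algebraMap k K (a i0)) ≠ 0 := h0 i0
  set t : K := (F.eval (algebraMap k K (a i0)) / F.leadingCoeff) ^ (κ.toNat * g) with ht
  have ht0 : t ≠ 0 := pow_ne_zero _ (div_ne_zero hFa hlead)
  have htord : ∀ P : Place k K, P.ord t = κ * g *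
      (P.ord (F.eval (algebraMap k K (a i0))) - P.ord F.leadingCoeff) := by
    intro P
    rw [ht, P.ord_pow, P.ord_div hFa hlead]
    push_cast
    rw [Int.toNat_of_nonneg hκ0]
  let ω : Fin (w + 1) → (Fin w → Derivation k K K) → K := fun j =>
    phi F.leadingCoeff A c a J (F.natDegree + 1) F.coeff (ψ j * t)
  have hωt : ∀ j D, ω j D = phi F.leadingCoeff A c a J (F.natDegree + 1) F.coeff (ψ j) D * t := by
    intro j D
    change phi F.leadingCoeff A c a J (F.natDegree + 1) F.coeff (ψ j * t) D = _
    unfold phi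
    ring
  refine ⟨A * (Fintype.card ι * g), Nat.mul_pos hA (Nat.mul_pos Fintype.card_pos hg0), ω, x, hbas,
    ?_, ?_, ?_, ?_⟩
  · intro j
    exact phi_pluri _ _ _ _ _ _ _ _
  rotate_left
  · intro i D
    rw [hωt, hωt]
    change phi F.leadingCoeff A c a J (F.natDegree + 1) F.coeff (x i) D * t =
      phi F.leadingCoeff A c a J (F.natDegree + 1) F.coeff 1 D * t * x i
    unfold phi
    ring
  · intro b P j0 hj0 hj1 hram j D hD
    have h1 := ge_phi_base2 (b := b) D hD F.coeff (c0 := P.ord (F.coeff j0)) (fun j _ => hj1 j) hj0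
      rfl a ha A c hcA h0' (fun hb i => by rw [ev_eq_eval]; exact hram hb i) hlead r hr hroot'
      hcoef J hJr hcov hb2 (ψ j) (hψ j)
    rw [hωt]
    have hp : 0 ≤ P.ord (F.eval (algebraMap k K (a i0))) - P.ord (F.coeff j0) := by
      have h2 : Ge P (P.ord (F.coeff j0)) (F.eval (algebraMap k K (a i0))) := by
        rw [Polynomial.eval_eq_sum_range]
        refine Ge.sum _ _ fun i _ => ?_
        have h3 : Ge P (P.ord (F.coeff j0)) (F.coeff i) := hj1 i
        have h4 := h3.mul (Ge.const (P := P) ((a i0) ^ i))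
        rw [add_zero, map_pow] at h4
        exact h4
      have h3 := h2.resolve_left (h0 i0)
      omega
    have h2 : Ge P (P.ord t) t := Or.inr le_rfl
    refine (h1.mul h2).mono ?_
    rw [htord]
    have h3 : κ * ((g : ℤ) * (P.ord F.leadingCoeff - P.ord (F.coeff j0))) + κ * g *
        (P.ord (F.eval (algebraMap k K (a i0))) - P.ord F.leadingCoeff) =
        κ * (g * (P.ord (F.eval (algebraMap k K (a i0))) - P.ord (F.coeff j0))) := by ring
    rw [← hκ, ← hg, h3]
    have h4 : 0 ≤ (g : ℤ) * (P.ord (F.eval (algebraMap k K (a i0))) - P.ord (F.coeff j0)) :=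
      mul_nonneg (by positivity) hp
    calc (R : ℤ) * ((A * (Fintype.card ι * g) : ℕ) : ℤ) *
        (P.ord (F.eval (algebraMap k K (a i0))) - P.ord (F.coeff j0)) =
        ((R : ℤ) * (A * Fintype.card ι)) *
          (g * (P.ord (F.eval (algebraMap k K (a i0))) - P.ord (F.coeff j0))) := by
          push_cast; ring
      _ ≤ _ := mul_le_mul_of_nonneg_right hκ1 h4
  · -- vector fields on which the forms do not vanish
    have hD : ∀ i : Fin w, ∃ D : Derivation k K K, ∀ j, D (x j) = if i = j then 1 else 0 :=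
      fun i => exists_der x hbas (fun j => if i = j then 1 else 0)
    choose D hD using hD
    have hE : ∀ i, ∃ E : Derivation k L L, ∀ x : K, E (algebraMap K L x) =
        algebraMap K L (D i x) := fun i => exists_ext (D i)
    choose E hE using hE
    have hdet : ∀ l, (Matrix.of fun i j => E i (J l j)).det ≠ 0 := by
      intro l hl
      obtain ⟨v, hv0, hv⟩ := Matrix.exists_vecMul_eq_zero_iff.2 hl
      have h1 : (∑ i, v i • E i : Derivation k L L) = 0 := by
        apply der_ext (J l) (hJb l)
        intro j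
        rw [sum_smul_der]
        have := congrFun hv j
        exact this
      apply hv0
      funext j
      have h2 : (∑ i, v i • E i : Derivation k L L) (algebraMap K L (x j)) = v j := by
        rw [sum_smul_der, Finset.sum_eq_single j]
        · rw [hE, hD, if_pos rfl, map_one, mul_one]
        · intro i _ hij
          rw [hE, hD, if_neg hij, map_zero, mul_zero]
        · intro h
          exact absurd (Finset.mem_univ j) h
      rw [h1] at h2
      exact h2.symm
    have hder : ∀ i (t : L), Polynomial.aeval t F = 0 →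
        ev L (F.natDegree + 1) (fun j => D i (F.coeff j)) t =
          (- Polynomial.aeval t (Polynomial.derivative F)) * E i t := by
      intro i t ht
      have h1 := der_ev (hE i) (F.natDegree + 1) F.coeff t
      rw [ev_eq_aeval, ht, map_zero] at h1
      have h2 : (∑ j ∈ Finset.range (F.natDegree + 1), algebraMap K L (F.coeff j) *
          ((j : L) * t ^ (j - 1))) = Polynomial.aeval t (Polynomial.derivative F) := by
        exact sum_derivative F t
      rw [h2] at h1
      linear_combination -h1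
    refine ⟨D, ?_⟩
    rw [hωt]
    refine mul_ne_zero ?_ ht0
    · change phi F.leadingCoeff A c a J (F.natDegree + 1) F.coeff 1 D ≠ 0
      unfold phi
      have hden : den F.leadingCoeff A c a J ≠ 0 := by
        unfold den
        refine mul_ne_zero (pow_ne_zero _ hlead) (Finset.prod_ne_zero_iff.2 fun l _ =>
          Finset.prod_ne_zero_iff.2 fun j _ => Finset.prod_ne_zero_iff.2 fun i _ =>
            pow_ne_zero _ (norm_ne (sub_ne_zero.2 ?_)))
        intro h
        obtain ⟨i', hi'⟩ := hJr l j
        have h3 := hroot' i'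
        rw [← hi', h, ev_const, map_eq_zero] at h3
        exact h0' i h3
      refine mul_ne_zero (div_ne_zero one_ne_zero hden) (pow_ne_zero _
        (Finset.prod_ne_zero_iff.2 fun l _ => norm_ne ?_))
      have h1 : mat (F.natDegree + 1) F.coeff (J l) D = Matrix.of fun i j =>
          (fun j => - Polynomial.aeval (J l j) (Polynomial.derivative F)) j *
            (Matrix.of fun i j => E i (J l j)) i j := by
        ext i j
        obtain ⟨i', hi'⟩ := hJr l j
        exact hder i (J l j) (by rw [hi']; exact hroot i')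
      rw [h1, Matrix.det_mul_row (fun j => - Polynomial.aeval (J l j) (Polynomial.derivative F))
        (Matrix.of fun i j => E i (J l j))]
      refine mul_ne_zero (Finset.prod_ne_zero_iff.2 fun j _ => neg_ne_zero.2 ?_) (hdet l)
      obtain ⟨i', hi'⟩ := hJr l j
      rw [hi']
      exact hF.aeval_derivative_ne_zero (hroot i')


end Pool.Agent.N115.JT
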