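import Pool.Agent.N115.JT.Red2
import Pool.Agent.N115.JT.Comb

/-!
One multi-valued map over the base field.
-/

set_option autoImplicit false
set_option linter.unusedSectionVars false

open FF Pool.Agent.W603.LV Pool.Agent.Y190.BV Polynomial

namespace Pool.Agent.N115.JT

open Pool.Agent.W602.GT (GeneralType Ruled coords essFinite)
open Pool.Agent.N115.AN (Free)

/-- polynomials descend to the field of their values -/
theorem descend {k E : Type} [Field k] [Field E] [Algebra k E] (K1 : IntermediateField k E)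
    {n N m : ℕ} (hn : n ≤ N) {a : Fin (N + 1) → k} (ha : Function.Injective a)
    (z : Fin (N + 1) → K1) {H : E[X]} (hH : H.natDegree ≤ n)
    (hev : ∀ i, (z i : E) ^ m = H.eval (algebraMap k E (a i))) :
    ∃ H2 : K1[X], H2.map (algebraMap K1 E) = H := by
  classical
  have hinj : Function.Injective fun i => algebraMap k E (a i) :=
    (algebraMap k E).injective.comp ha
  set H2 : K1[X] := Lagrange.interpolate Finset.univ (fun i => algebraMap k K1 (a i))
    (fun i => z i ^ m) with hH2
  have hinj1 : Set.InjOn (fun i => algebraMap k K1 (a i)) (Finset.univ : Finset (Fin (N + 1))) :=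
    ((algebraMap k K1).injective.comp ha).injOn
  have hH2ev : ∀ i, H2.eval (algebraMap k K1 (a i)) = z i ^ m := fun i =>
    Lagrange.eval_interpolate_at_node _ hinj1 (Finset.mem_univ i)
  have hH2deg : H2.degree < (Finset.univ : Finset (Fin (N + 1))).card :=
    Lagrange.degree_interpolate_lt _ hinj1
  refine ⟨H2, ?_⟩
  apply Polynomial.eq_of_degrees_lt_of_eval_index_eq (s := Finset.univ)
    (v := fun i => algebraMap k E (a i)) hinj.injOn
  · rw [degree_map]
    exact hH2deg
  · rw [Finset.card_univ, Fintype.card_fin]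
    refine (degree_le_natDegree).trans_lt ?_
    exact_mod_cast (by omega : H.natDegree < N + 1)
  · intro i _
    rw [← hev i]
    have h1 : algebraMap k E (a i) = algebraMap K1 E (algebraMap k K1 (a i)) :=
      IsScalarTower.algebraMap_apply k K1 E _
    rw [h1, eval_map_algebraMap, aeval_algebraMap_apply_eq_algebraMap_eval, hH2ev i, map_pow]
    rfl

/-- the number of zeros -/
theorem card_zeros {k E : Type} [Field k] [Field E] [Algebra k E] {N m : ℕ} (hm : 1 ≤ m)
    {a : Fin (N + 1) → k} (ha : Function.Injective a) {H : E[X]} (hH : H ≠ 0)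
    {z : Fin (N + 1) → E} (hev : ∀ i, z i ^ m = H.eval (algebraMap k E (a i)))
    {Z : Finset (Fin (N + 1))} (hZ : ∀ i, i ∈ Z ↔ z i = 0) : Z.card ≤ H.natDegree := by
  classical
  have hinj : Function.Injective fun i => algebraMap k E (a i) :=
    (algebraMap k E).injective.comp ha
  rw [← Finset.card_image_of_injective Z hinj]
  apply Polynomial.card_le_degree_of_subset_roots
  intro x hx
  rw [Finset.mem_val, Finset.mem_image] at hx
  obtain ⟨i, hi, rfl⟩ := hx
  rw [Polynomial.mem_roots hH, Polynomial.IsRoot.def, ← hev, (hZ i).1 hi, zero_pow (by omega)]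

/-- images of algebraic elements -/
theorem alg_image {k K Ω : Type} [Field k] [Field K] [Field Ω] [Algebra k K] [Algebra k Ω]
    (A : IntermediateField k K) [Algebra.IsAlgebraic A K] (φ : K →ₐ[k] Ω)
    (B : IntermediateField k Ω) (h : ∀ x ∈ A, IsAlgebraic B (φ x)) (x : K) :
    IsAlgebraic B (φ x) := by
  let C : IntermediateField B Ω := algebraicClosure B Ω
  let ψ : A →+* C :=
    { toFun := fun x => ⟨φ x, mem_algebraicClosure_iff.2 (h x x.2)⟩
      map_one' := Subtype.ext (map_one _)
      map_mul' := fun x y => Subtype.ext (map_mul _ _ _)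
      map_zero' := Subtype.ext (map_zero _)
      map_add' := fun x y => Subtype.ext (map_add _ _ _) }
  let _ : Algebra A C := ψ.toAlgebra
  let _ : Algebra A Ω := (φ.toRingHom.comp (algebraMap A K)).toAlgebra
  have : IsScalarTower A C Ω := IsScalarTower.of_algebraMap_eq fun x => rfl
  let φ' : K →ₐ[A] Ω := { φ.toRingHom with commutes' := fun _ => rfl }
  have h1 : IsAlgebraic A x := Algebra.IsAlgebraic.isAlgebraic x
  have h2 : IsAlgebraic A (φ' x) := h1.algHom φ'
  have h3 : IsAlgebraic C (φ x) := h2.extendScalars ψ.injective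
  have h7 : Algebra.IsAlgebraic B C := algebraicClosure.isAlgebraic B Ω
  exact h3.restrictScalars B

/-- elements of the field of the ratios -/
theorem coords_image {k K Ω : Type} [Field k] [Field K] [Field Ω] [Algebra k K] [Algebra k Ω]
    {N : ℕ} (z : Fin (N + 1) → K) (φ : K →ₐ[k] Ω) (B : IntermediateField k Ω) {j0 : Fin (N + 1)}
    (h : ∀ j, IsAlgebraic B (φ (z j / z j0))) (hj0 : z j0 ≠ 0) : ∀ x ∈ coords k z,
      IsAlgebraic B (φ x) := by
  let C : IntermediateField B Ω := algebraicClosure B Ω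
  have h1 : coords k z ≤ (C.restrictScalars k).comap φ := by
    unfold coords
    rw [IntermediateField.adjoin_le_iff]
    rintro _ ⟨i, j, hj, rfl⟩
    change φ (z i / z j) ∈ C
    have e : z i / z j = (z i / z j0) / (z j / z j0) := by
      rw [div_div_div_cancel_right₀ hj0]
    rw [e, map_div₀]
    exact C.div_mem (mem_algebraicClosure_iff.2 (h i)) (mem_algebraicClosure_iff.2 (h j))
  intro x hx
  exact mem_algebraicClosure_iff.1 (h1 hx)

/-- dropped nodes are bad nodes -/
theorem Dat.extend {k K : Type} [Field k] [Field K] [Algebra k K] {r n n1 N N1 : ℕ}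
    {a : Fin (N + 1) → k} {c : Fin (N1 + 1) → Fin (N + 1)} (hc : Function.Injective c)
    {Z1 : Finset (Fin (N1 + 1))} {Z : Finset (Fin (N + 1))}
    (hZ : ∀ i, i ∉ Z ↔ ∃ j, c j = i ∧ j ∉ Z1) (hn : n1 + (N - N1) ≤ n)
    {F : K[X]} {b : ℕ} {δ : K} (h : Dat r n1 (fun j => a (c j)) Z1 F b δ) :
    Dat r n a Z F b δ := by
  classical
  refine ⟨h.monic, h.sq, h.nroot, ?_, h.hb, h.ne, h.ge, fun P i hi h1 => ?_⟩
  · have h2 : Zᶜ = Z1ᶜ.image c := by
      ext i
      rw [Finset.mem_compl, hZ, Finset.mem_image]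
      constructor
      · rintro ⟨j, h3, h4⟩
        exact ⟨j, Finset.mem_compl.2 h4, h3⟩
      · rintro ⟨j, h3, h4⟩
        exact ⟨j, h4, Finset.mem_compl.1 h3⟩
    have h3 := congrArg Finset.card h2
    rw [Finset.card_image_of_injective _ hc, Finset.card_compl, Finset.card_compl,
      Fintype.card_fin, Fintype.card_fin] at h3
    have h4 : Z.card ≤ N + 1 := by
      have := Finset.card_le_univ Z
      rwa [Fintype.card_fin] at this
    have h5 : Z1.card ≤ N1 + 1 := by
      have := Finset.card_le_univ Z1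
      rwa [Fintype.card_fin] at this
    have h6 := h.deg
    have h7 : Z.card + n1 ≤ Z1.card + n := by omega
    have h8 : r * (Z.card + n1) ≤ r * (Z1.card + n) := Nat.mul_le_mul_left _ h7
    rw [mul_add, mul_add] at h8
    omega
  · obtain ⟨j, rfl, hj⟩ := (hZ i).1 hi
    exact h.one P j hj h1

/-- **One map.** -/
theorem one_map (hR : RootsAlg) (hDD : DegreeDown) {k L E Ω : Type} [Field k] [Field L]
    [Field E] [Field Ω] [Algebra k L] [Algebra k E] [Algebra L E] [IsScalarTower k L E]
    [CharZero k] [IsAlgClosed k] [FiniteDimensional L E] [Algebra k Ω] [Algebra L Ω]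
    [IsScalarTower k L Ω] [IsAlgClosed Ω] {m n N r : ℕ} (hm : 2 ≤ m) (hn : n ≤ N) (hN1 : 1 ≤ N)
    (hfr : Module.finrank L E ≤ r) {a : Fin (N + 1) → k} (ha : Function.Injective a)
    {y : Fin (N + 1) → E} (hy0 : y ≠ 0) {H : E[X]} (hdeg : H.natDegree ≤ n)
    (hval : ∀ i, y i ^ m = H.eval (algebraMap k E (a i)))
    (hfac : ∀ q : E[X], 2 ≤ q.natDegree → ¬ q ^ m ∣ H) (hnr : ¬ Ruled k (coords k y))
    (L0 : IntermediateField k L) (hcl : ∀ x : L, IsAlgebraic L0 x → x ∈ L0)
    (halg : ∀ i j, y j ≠ 0 → IsAlgebraic L0 (y i / y j)) :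
    ∃ Z : Finset (Fin (N + 1)), Z.card ≤ n ∧ ∀ i0 ∉ Z, ∃ (F : L0[X]) (b : ℕ) (δ : L0),
      Dat r n a Z F b δ ∧ ∀ (σ : E →ₐ[L] Ω) (i j : Fin (N + 1)), y j ≠ 0 →
        IsAlgebraic (IntermediateField.adjoin k (F.rootSet Ω)) (σ (y i / y j)) := by
  classical
  obtain ⟨i1, hi1⟩ : ∃ i1, y i1 ≠ 0 := Function.ne_iff.1 hy0
  set K0 : IntermediateField k E := coords k y with hK0
  have hmemK0 : ∀ i j, y j ≠ 0 → y i / y j ∈ K0 := fun i j hj =>
    IntermediateField.subset_adjoin k _ ⟨i, j, hj, rfl⟩
  set y' : Fin (N + 1) → K0 := fun i => ⟨y i / y i1, hmemK0 i i1 hi1⟩ with hy'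
  have hc0 : (y i1 ^ m)⁻¹ ≠ 0 := inv_ne_zero (pow_ne_zero _ hi1)
  have hev : ∀ i, ((y' i : K0) : E) ^ m = (C (y i1 ^ m)⁻¹ * H).eval (algebraMap k E (a i)) := by
    intro i
    rw [eval_mul, eval_C, ← hval i, hy']
    simp only [div_pow]
    rw [div_eq_mul_inv, mul_comm]
  obtain ⟨H0, hH0⟩ := descend K0 hn ha y' (H := C (y i1 ^ m)⁻¹ * H)
    (by rw [natDegree_C_mul hc0]; exact hdeg) hev
  have hH0deg : H0.natDegree ≤ n := by
    rw [← natDegree_map (algebraMap K0 E), hH0, natDegree_C_mul hc0]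
    exact hdeg
  have hval0 : ∀ i, y' i ^ m = H0.eval (algebraMap k K0 (a i)) := by
    intro i
    apply Subtype.ext
    rw [SubmonoidClass.coe_pow, hev i, ← hH0]
    rw [IsScalarTower.algebraMap_apply k K0 E, eval_map_algebraMap,
      aeval_algebraMap_apply_eq_algebraMap_eval]
    rfl
  have hfac0 : ∀ q : K0[X], 2 ≤ q.natDegree → ¬ q ^ m ∣ H0 := by
    intro q hq hd
    have h2 := Polynomial.map_dvd (algebraMap K0 E) hd
    rw [Polynomial.map_pow, hH0] at h2
    exact hfac (q.map (algebraMap K0 E)) (by rwa [natDegree_map])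
      (((isUnit_C.2 (IsUnit.mk0 _ hc0)).dvd_mul_left).1 h2)
  have hy'0 : y' ≠ 0 := by
    intro h
    have h1 := congrArg Subtype.val (congrFun h i1)
    change y i1 / y i1 = 0 at h1
    rw [div_self hi1] at h1
    exact one_ne_zero h1
  have hgen : coords k y' = ⊤ := by
    have e1 : (coords k y').map K0.val = IntermediateField.adjoin k
        (K0.val '' {x | ∃ i j, y' j ≠ 0 ∧ x = y' i / y' j}) := by
      change (IntermediateField.adjoin k _).map K0.val = _
      rw [IntermediateField.adjoin_map]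
    have e2 : K0.val '' {x | ∃ i j, y' j ≠ 0 ∧ x = y' i / y' j} =
        {x | ∃ i j, y j ≠ 0 ∧ x = y i / y j} := by
      ext x
      constructor
      · rintro ⟨_, ⟨i, j, hj, rfl⟩, rfl⟩
        have hj' : y j ≠ 0 := by
          rintro h
          apply hj
          apply Subtype.ext
          change y j / y i1 = 0
          rw [h, zero_div]
        refine ⟨i, j, hj', ?_⟩
        change (y i / y i1) / (y j / y i1) = _
        rw [div_div_div_cancel_right₀ hi1]
      · rintro ⟨i, j, hj, rfl⟩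
        refine ⟨y' i / y' j, ⟨i, j, ?_, rfl⟩, ?_⟩
        · intro h
          have h1 := congrArg Subtype.val h
          change y j / y i1 = 0 at h1
          rw [div_eq_zero_iff] at h1
          exact h1.elim hj hi1
        · change (y i / y i1) / (y j / y i1) = _
          rw [div_div_div_cancel_right₀ hi1]
    have h1 : (coords k y').map K0.val = K0 := by
      rw [e1, e2]
      rfl
    apply le_antisymm le_top
    intro x _
    have h2 : (x : E) ∈ (coords k y').map K0.val := by
      rw [h1]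
      exact x.2
    obtain ⟨x', hx', hxx⟩ := h2
    have h3 : x' = x := Subtype.ext hxx
    rw [← h3]
    exact hx'
  obtain ⟨N1, n1, c, H1, z, hc, hfree, hcase⟩ := (reduce_nodes hm hn hN1 ha hy'0 hgen hH0deg hval0
    hfac0).resolve_right hnr
  have hNN : N1 ≤ N ∧ n1 + (N - N1) ≤ n ∧ n1 ≤ N1 := by
    rcases hcase with ⟨rfl, rfl⟩ | ⟨h1, h2⟩
    · omega
    · omega
  -- the field over `L0`
  set S : Set E := {x | ∃ i j, y j ≠ 0 ∧ x = y i / y j} with hS
  have hSfin : S.Finite := by
    refine (Set.finite_range fun p : Fin (N + 1) × Fin (N + 1) => y p.1 / y p.2).subset ?_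
    rintro _ ⟨i, j, _, rfl⟩
    exact ⟨(i, j), rfl⟩
  obtain ⟨hfd, hfrk⟩ := hDD k L E L0 hcl S hSfin (by
    rintro _ ⟨i, j, hj, rfl⟩
    exact halg i j hj)
  set E0 : IntermediateField L0 E := IntermediateField.adjoin L0 S with hE0
  have tk : IsScalarTower k L0 E := by
    refine IsScalarTower.of_algebraMap_eq fun x => ?_
    rw [IsScalarTower.algebraMap_apply k L E]
    rfl
  have hKE : ∀ x ∈ K0, x ∈ E0 := by
    have h1 : K0 ≤ E0.restrictScalars k := by
      rw [hK0]
      unfold coords
      rw [IntermediateField.adjoin_le_iff]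
      rintro _ ⟨i, j, hj, rfl⟩
      exact IntermediateField.subset_adjoin L0 _ ⟨i, j, hj, rfl⟩
    exact fun x hx => h1 hx
  let ψ : K0 →+* E0 :=
    { toFun := fun x => ⟨x, hKE x x.2⟩
      map_one' := rfl
      map_mul' := fun x y => rfl
      map_zero' := rfl
      map_add' := fun x y => rfl }
  let _ : Algebra K0 E0 := ψ.toAlgebra
  have tE0 : IsScalarTower k K0 E0 := IsScalarTower.of_algebraMap_eq fun x => rfl
  have tE1 : IsScalarTower k L0 E0 := IsScalarTower.of_algebraMap_eq fun x => by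
    apply Subtype.ext
    change algebraMap k E x = algebraMap L0 E (algebraMap k L0 x)
    rw [← IsScalarTower.algebraMap_apply]
  have hch0 : CharZero K0 := charZero_of_injective_algebraMap (algebraMap k K0).injective
  have hval1 : ∀ j, (fun j => ψ (z j)) j ^ m = (H1.map (algebraMap K0 E0)).eval
      (algebraMap k E0 (a (c j))) := by
    intro j
    change ψ (z j) ^ m = _
    rw [← map_pow, hfree.val j, IsScalarTower.algebraMap_apply k K0 E0, eval_map_algebraMap,
      aeval_algebraMap_apply_eq_algebraMap_eval]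
    rfl
  have hH1 : H1.map (algebraMap K0 E0) ≠ 0 :=
    (Polynomial.map_ne_zero_iff (algebraMap K0 E0).injective).2 hfree.ne
  set Z1 : Finset (Fin (N1 + 1)) := Finset.univ.filter fun j => ψ (z j) = 0 with hZ1
  have hZ1' : ∀ j, j ∈ Z1 ↔ ψ (z j) = 0 := fun j => by rw [hZ1, Finset.mem_filter]; simp
  set Z : Finset (Fin (N + 1)) := Finset.univ.filter fun i => ∀ j, c j = i → j ∈ Z1 with hZ
  have hZ' : ∀ i, i ∉ Z ↔ ∃ j, c j = i ∧ j ∉ Z1 := by
    intro i
    rw [hZ, Finset.mem_filter]
    simp only [Finset.mem_univ, true_and]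
    push Not
    rfl
  have hZ1c : Z1.card ≤ n1 := by
    have h1 := card_zeros (by omega : 1 ≤ m) hfree.inj hH1 hval1 hZ1'
    exact h1.trans (natDegree_map_le.trans hfree.deg)
  have hZc : Z.card ≤ n := by
    have h2 : Zᶜ = Z1ᶜ.image c := by
      ext i
      rw [Finset.mem_compl, hZ', Finset.mem_image]
      constructor
      · rintro ⟨j, h3, h4⟩
        exact ⟨j, Finset.mem_compl.2 h4, h3⟩
      · rintro ⟨j, h3, h4⟩
        exact ⟨j, h4, Finset.mem_compl.1 h3⟩
    have h3 := congrArg Finset.card h2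
    rw [Finset.card_image_of_injective _ hc, Finset.card_compl, Finset.card_compl,
      Fintype.card_fin, Fintype.card_fin] at h3
    have h4 : Z.card ≤ N + 1 := by
      have := Finset.card_le_univ Z
      rwa [Fintype.card_fin] at this
    omega
  refine ⟨Z, hZc, fun i0 hi0 => ?_⟩
  obtain ⟨j0, -, hj0⟩ := (hZ' i0).1 hi0
  have hj0' : ψ (z j0) ≠ 0 := fun h => hj0 ((hZ1' j0).2 h)
  obtain ⟨F, b, δ, hD, hv⟩ := map_dat hR (k := k) (K := L0) (E := E0) (r := r) (n := n1) (m := m)
    (N := N1) (hfrk.trans hfr) hm hNN.2.2 (a := fun j => a (c j)) hfree.inj hH1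
    (natDegree_map_le.trans hfree.deg) hval1 (fun p hp hd => by
      obtain ⟨p0, h1, h2⟩ := Pool.Agent.N115.IM.exists_down hfree.ne (by omega : 1 ≤ m) hp hd
      exact hfree.free p0 h1 h2) (i0 := j0) hj0' hZ1'
  refine ⟨F, b, δ, hD.extend hc hZ' hNN.2.1, ?_⟩
  intro σ i j hj
  have tΩ : IsScalarTower k L0 Ω := by
    refine IsScalarTower.of_algebraMap_eq fun x => ?_
    rw [IsScalarTower.algebraMap_apply k L Ω]
    rfl
  let τ : E0 →ₐ[L0] Ω := (σ.restrictScalars L0).comp E0.val
  let φ : K0 →ₐ[k] Ω := (σ.restrictScalars k).comp K0.val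
  have h1 : ∀ j, IsAlgebraic (IntermediateField.adjoin k (F.rootSet Ω)) (φ (z j / z j0)) :=
    fun j => hv Ω τ j
  have hz0 : z j0 ≠ 0 := by
    intro h
    apply hj0'
    rw [h, map_zero]
  have h2 := coords_image z φ (IntermediateField.adjoin k (F.rootSet Ω)) h1 hz0
  have halgz : Algebra.IsAlgebraic (coords k z) K0 := hfree.alg
  exact alg_image (coords k z) φ _ h2 ⟨y i / y j, hmemK0 i j hj⟩

end Pool.Agent.N115.JT
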