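import Pool.Agent.N115.AN.Red
import Pool.Agent.Y190.BV.Bez
import Pool.Agent.N115.JT.Datum

/-!
The reduction of a multi-valued map to a polynomial without `m`-fold factors.
-/

set_option autoImplicit false

open FF Pool.Agent.W603.LV Polynomial

namespace Pool.Agent.N115.JT

open Pool.Agent.W602.GT (GeneralType Ruled coords essFinite)
open Pool.Agent.Y190.BV (alg_coeffs)
open Pool.Agent.N115.AN (Free ratios_mem alg_of_ratios ratios_of_alg)

variable {k : Type} [Field k] {N n m r w : ℕ}

/-- **The reduction**, with the nodes which are left. -/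
theorem reduce_nodes [CharZero k] [IsAlgClosed k] (hm : 2 ≤ m)
    (hn : n ≤ N) (hN1 : 1 ≤ N) {a : Fin (N + 1) → k}
    (ha : Function.Injective a) {K : Type} [Field K] [Algebra k K]
    {y : Fin (N + 1) → K} (hy0 : y ≠ 0) (hgen : coords k y = ⊤) {H : K[X]}
    (hdeg : H.natDegree ≤ n) (hy : ∀ i, y i ^ m = H.eval (algebraMap k K (a i)))
    (hfac : ∀ q : K[X], 2 ≤ q.natDegree → ¬ q ^ m ∣ H) :
    (∃ (N1 n1 : ℕ) (c : Fin (N1 + 1) → Fin (N + 1)) (H1 : K[X]) (z : Fin (N1 + 1) → K),
      Function.Injective c ∧ Free m n1 (fun j => a (c j)) H1 z ∧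
        ((N1 = N ∧ n1 = n) ∨ (N1 + 1 = N ∧ n1 + m ≤ n))) ∨ Ruled k K := by
  classical
  have hess : Algebra.EssFiniteType k K := essFinite hgen
  have hev : ∀ i, H.eval (algebraMap k K (a i)) = y i ^ m := fun i => (hy i).symm
  have hH : H ≠ 0 := by
    intro h0
    apply hy0
    funext i
    have h1 := hev i
    rw [h0, Polynomial.eval_zero] at h1
    exact eq_zero_of_pow_eq_zero h1.symm
  have halgH := alg_coeffs (by omega : 1 ≤ m) hgen hH hev
  by_cases hfree : ∀ p : K[X], Irreducible p → ¬ p ^ m ∣ H
  · left
    exact ⟨N, n, id, H, y, Function.injective_id, ⟨ha, hH, hdeg, hy, hfree, hgen ▸ inferInstance⟩,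
      Or.inl ⟨rfl, rfl⟩⟩
  push Not at hfree
  obtain ⟨p, hp, hpH⟩ := hfree
  have hp1 : p.natDegree = 1 := by
    have h2 := hp.natDegree_pos
    by_contra hne
    exact hfac p (by omega) hpH
  obtain ⟨t, ht⟩ : ∃ t : K, p.eval t = 0 := by
    have h1 := Polynomial.exists_root_of_degree_eq_one (p := p)
      ((Polynomial.degree_eq_iff_natDegree_eq_of_pos one_pos).2 hp1)
    obtain ⟨t, ht⟩ := h1
    exact ⟨t, ht⟩
  obtain ⟨H', hH'⟩ : (Polynomial.X - Polynomial.C t) ^ m ∣ H :=
    (pow_dvd_pow_of_dvd (Polynomial.dvd_iff_isRoot.2 ht) m).trans hpH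
  have hH'0 : H' ≠ 0 := by
    rintro rfl
    rw [mul_zero] at hH'
    exact hH hH'
  have hdeg1 : H'.natDegree + m ≤ n := by
    have h4 := congrArg Polynomial.natDegree hH'
    rw [Polynomial.natDegree_mul (pow_ne_zero _ (Polynomial.X_sub_C_ne_zero t)) hH'0,
      Polynomial.natDegree_pow, Polynomial.natDegree_X_sub_C, mul_one] at h4
    omega
  have hfree' : ∀ p' : K[X], Irreducible p' → ¬ p' ^ m ∣ H' := by
    intro p' hp' hd
    refine hfac ((Polynomial.X - Polynomial.C t) * p') ?_ ?_
    · rw [Polynomial.natDegree_mul (Polynomial.X_sub_C_ne_zero t) hp'.ne_zero,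
        Polynomial.natDegree_X_sub_C]
      have := hp'.natDegree_pos
      omega
    · rw [hH', mul_pow]
      exact mul_dvd_mul_left _ hd
  have hev' : ∀ i, (algebraMap k K (a i) - t) ^ m * H'.eval (algebraMap k K (a i)) = y i ^ m := by
    intro i
    rw [← hev i, hH', Polynomial.eval_mul, Polynomial.eval_pow, Polynomial.eval_sub,
      Polynomial.eval_X, Polynomial.eval_C]
  obtain ⟨j0, hj0⟩ : ∃ j0, H'.coeff j0 ≠ 0 := by
    by_contra hcon
    push Not at hcon
    exact hH'0 (Polynomial.ext fun j => by rw [hcon j, Polynomial.coeff_zero])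
  set S' : Set K := {x | ∃ i j, x = H'.coeff i / H'.coeff j} with hS'
  by_cases hA : Algebra.IsAlgebraic (Algebra.adjoin k S') K
  · -- the field is algebraic over the ratios of the coefficients
    left
    obtain ⟨N', rfl⟩ : ∃ N', N = N' + 1 := ⟨N - 1, by omega⟩
    obtain ⟨i0, hi0⟩ : ∃ i0 : Fin (N' + 1 + 1), ∀ i, i ≠ i0 → algebraMap k K (a i) ≠ t := by
      by_cases h : ∃ i0, algebraMap k K (a i0) = t
      · obtain ⟨i0, hi0⟩ := h
        refine ⟨i0, fun i hi h1 => hi (ha ((algebraMap k K).injective ?_))⟩
        rw [h1, hi0]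
      · push Not at h
        exact ⟨0, fun i _ => h i⟩
    have hv : ∀ j, (y (i0.succAbove j) / (algebraMap k K (a (i0.succAbove j)) - t)) ^ m =
        H'.eval (algebraMap k K (a (i0.succAbove j))) := by
      intro j
      have h1 : algebraMap k K (a (i0.succAbove j)) - t ≠ 0 :=
        sub_ne_zero.2 (hi0 _ (Fin.succAbove_ne i0 j))
      rw [div_pow, ← hev', mul_comm, mul_div_assoc, div_self (pow_ne_zero _ h1), mul_one]
    have ha2 : Function.Injective fun j => a (i0.succAbove j) := fun x y hxy =>
      Fin.succAbove_right_injective (ha hxy)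
    exact ⟨N', n - m, i0.succAbove, H',
      fun j => y (i0.succAbove j) / (algebraMap k K (a (i0.succAbove j)) - t),
      Fin.succAbove_right_injective, ⟨ha2, hH'0, by omega, hv, hfree', alg_of_ratios (n := n - m) ha2 (by omega) (by omega) hH'0
        hv (by omega : 1 ≤ m) hA⟩, Or.inr ⟨rfl, by omega⟩⟩
  right
  set E : IntermediateField k K := IntermediateField.adjoin k S' with hE
  set F1 : IntermediateField E K := algebraicClosure E K with hF1
  have hEF : ∀ x ∈ E, x ∈ F1 := fun x hx => F1.algebraMap_mem (⟨x, hx⟩ : E)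
  -- `t` is transcendental
  have hB : Transcendental E t := by
    intro htalg
    apply hA
    have htF : t ∈ F1 := mem_algebraicClosure_iff.2 htalg
    have hpowF : ∀ u, ((Polynomial.X - Polynomial.C t) ^ m).coeff u ∈ F1 := by
      intro u
      have h1 : (Polynomial.X - Polynomial.C t) ^ m =
          ((Polynomial.X - Polynomial.C (⟨t, htF⟩ : F1)) ^ m).map (algebraMap F1 K) := by
        rw [Polynomial.map_pow, Polynomial.map_sub, Polynomial.map_X, Polynomial.map_C]
        rfl
      rw [h1, Polynomial.coeff_map]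
      exact SetLike.coe_mem _
    have hcF : ∀ i, H.coeff i / H'.coeff j0 ∈ F1 := by
      intro i
      rw [hH', Polynomial.coeff_mul, Finset.sum_div]
      refine F1.sum_mem fun x _ => ?_
      rw [mul_div_assoc]
      exact F1.mul_mem (hpowF _) (hEF _ (IntermediateField.subset_adjoin k _ ⟨_, _, rfl⟩))
    have hle : Algebra.adjoin k {x | ∃ i j, x = H.coeff i / H.coeff j} ≤
        (F1.restrictScalars k).toSubalgebra := by
      rw [Algebra.adjoin_le_iff]
      rintro _ ⟨i, j, rfl⟩
      have e : H.coeff i / H.coeff j = (H.coeff i / H'.coeff j0) / (H.coeff j / H'.coeff j0) := by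
        rw [div_div_div_cancel_right₀ hj0]
      rw [e]
      exact F1.div_mem (hcF i) (hcF j)
    have h2 : Algebra.IsAlgebraic F1 K := by
      let _ : Algebra (Algebra.adjoin k {x | ∃ i j, x = H.coeff i / H.coeff j}) F1 :=
        (Subalgebra.inclusion hle).toRingHom.toAlgebra
      have : IsScalarTower (Algebra.adjoin k {x | ∃ i j, x = H.coeff i / H.coeff j}) F1 K :=
        IsScalarTower.of_algebraMap_eq fun x => rfl
      exact Algebra.IsAlgebraic.extendScalars
        (R := Algebra.adjoin k {x | ∃ i j, x = H.coeff i / H.coeff j})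
        (Subalgebra.inclusion_injective hle)
    have h3 : Algebra.IsAlgebraic E F1 := algebraicClosure.isAlgebraic E K
    have h4 : Algebra.IsAlgebraic E K := Algebra.IsAlgebraic.trans E F1 K
    exact IntermediateField.isAlgebraic_adjoin_iff_top.1 h4
  have hat : ∀ i, algebraMap k K (a i) - t ≠ 0 := by
    intro i h
    apply hB
    have h1 : t = algebraMap E K (algebraMap k E (a i)) := by
      rw [← IsScalarTower.algebraMap_apply k E K]
      exact (sub_eq_zero.1 h).symm
    rw [h1]
    exact isAlgebraic_algebraMap _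
  set z : Fin (N + 1) → K := fun i => y i / (algebraMap k K (a i) - t) with hz
  have hyz : ∀ i, y i = (algebraMap k K (a i) - t) * z i := by
    intro i
    simp only [hz]
    have := hat i
    field_simp
  have hzm : ∀ i, H'.eval (algebraMap k K (a i)) = z i ^ m := by
    intro i
    simp only [hz]
    rw [div_pow, ← hev', mul_div_assoc, mul_div_cancel₀ _ (pow_ne_zero _ (hat i))]
  have hHE : ∀ i, H'.eval (algebraMap k K (a i)) / H'.coeff j0 ∈ E := by
    intro i
    rw [Polynomial.eval_eq_sum_range, Finset.sum_div]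
    refine E.sum_mem fun j _ => ?_
    have e : H'.coeff j * algebraMap k K (a i) ^ j / H'.coeff j0 =
        (H'.coeff j / H'.coeff j0) * algebraMap k K (a i ^ j) := by
      rw [map_pow]; ring
    rw [e]
    exact E.mul_mem (IntermediateField.subset_adjoin k _ ⟨j, j0, rfl⟩) (E.algebraMap_mem _)
  have hzF : ∀ i j, z j ≠ 0 → z i / z j ∈ F1 := by
    intro i j hj
    apply mem_algebraicClosure_iff.2
    have h3 : (z i / z j) ^ m ∈ E := by
      have e : (z i / z j) ^ m = (H'.eval (algebraMap k K (a i)) / H'.coeff j0) /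
          (H'.eval (algebraMap k K (a j)) / H'.coeff j0) := by
        rw [hzm i, hzm j, div_pow, div_div_div_cancel_right₀ hj0]
      rw [e]
      exact E.div_mem (hHE i) (hHE j)
    have h4 : IsAlgebraic E ((z i / z j) ^ m) := isAlgebraic_algebraMap (⟨_, h3⟩ : E)
    exact IsAlgebraic.of_pow (by omega) h4
  have hle : coords k z ≤ F1.restrictScalars k := by
    unfold coords
    rw [IntermediateField.adjoin_le_iff]
    rintro _ ⟨i, j, hj, rfl⟩
    exact hzF i j hj
  refine ⟨coords k z, t, ?_, ?_⟩
  · intro htalg
    apply hB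
    have h1 : IsAlgebraic F1 t := by
      let _ : Algebra (coords k z) F1 := (IntermediateField.inclusion hle).toRingHom.toAlgebra
      have : IsScalarTower (coords k z) F1 K := IsScalarTower.of_algebraMap_eq fun x => rfl
      exact htalg.extendScalars (IntermediateField.inclusion hle).toRingHom.injective
    have h3 : Algebra.IsAlgebraic E F1 := algebraicClosure.isAlgebraic E K
    exact h1.restrictScalars E
  · have h1 : (⊤ : IntermediateField k K) ≤
        (IntermediateField.adjoin (coords k z) {t}).restrictScalars k := by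
      rw [← hgen]
      conv_lhs => unfold coords
      rw [IntermediateField.adjoin_le_iff]
      rintro _ ⟨i, j, hj, rfl⟩
      have hzj : z j ≠ 0 := by
        intro h0
        rw [hyz j, h0, mul_zero] at hj
        exact hj rfl
      have ht : t ∈ IntermediateField.adjoin (coords k z) {t} :=
        IntermediateField.mem_adjoin_simple_self _ t
      have hc : ∀ c : k, algebraMap k K c ∈ IntermediateField.adjoin (coords k z) {t} := by
        intro c
        have := (IntermediateField.adjoin (coords k z) {t}).algebraMap_mem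
          (algebraMap k (coords k z) c)
        rwa [← IsScalarTower.algebraMap_apply k (coords k z) K] at this
      have hr : z i / z j ∈ IntermediateField.adjoin (coords k z) {t} :=
        (IntermediateField.adjoin (coords k z) {t}).algebraMap_mem
          (⟨z i / z j, IntermediateField.subset_adjoin k _ ⟨i, j, hzj, rfl⟩⟩ : coords k z)
      have e : y i / y j = (algebraMap k K (a i) - t) / (algebraMap k K (a j) - t) *
          (z i / z j) := by
        rw [hyz i, hyz j, div_mul_div_comm]
      rw [e]
      exact mul_mem (div_mem (sub_mem (hc _) ht) (sub_mem (hc _) ht)) hr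
    rw [eq_top_iff]
    intro x _
    exact h1 (IntermediateField.mem_top (x := x))


end Pool.Agent.N115.JT
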